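import Pool.Agent.Helper341.Alt.LemV
set_option autoImplicit false
set_option linter.unusedSectionVars false

/-!
Alternating multilinear functions on an alternative algebra which are derivations in every argument and have
commuting values: from `n` arguments to `n + 2` arguments, and vanishing on algebras with fewer than `n` generators.
-/

namespace Pool.Agent.Helper817.Chain
open Pool.Agent.Helper928.Nuc.Tens hiding as_add1 as_add2 as_add3 as_neg1
open Pool.Agent.Helper928.Nuc.Alt Pool.Agent.Helper341.Alt
open Pool.Agent.Helper341.Alt.LemV (br_add1 br_antisymm three_as)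

/-- alternating multilinear functions of `n` arguments, derivations in every argument, with commuting values -/
structure AD (Φ : Type) [CommRing Φ] (A : Type) [NonUnitalNonAssocRing A] [Module Φ A] (n : ℕ)
    (f : (Fin n → A) → A) : Prop where
  add : ∀ (v : Fin n → A) (i : Fin n) (a b : A),
    f (Function.update v i (a + b)) = f (Function.update v i a) + f (Function.update v i b)
  smul : ∀ (v : Fin n → A) (i : Fin n) (r : Φ) (a : A),
    f (Function.update v i (r • a)) = r • f (Function.update v i a)
  alt : ∀ (v : Fin n → A) (i j : Fin n), i ≠ j → v i = v j → f v = 0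
  der : ∀ (v : Fin n → A) (i : Fin n) (a b : A),
    f (Function.update v i (a * b)) = a * f (Function.update v i b) + b * f (Function.update v i a)
  com : ∀ (v : Fin n → A) (a : A), br (f v) a = 0

section basic
variable {A : Type} [NonUnitalNonAssocRing A] (hA : IsAlt A)
include hA

section z
variable {z : A} (hz : ∀ a, br z a = 0)
include hz

omit hA in
lemma cm (a : A) : z * a = a * z := sub_eq_zero.mp (hz a)

omit hA in
lemma br_z (a : A) : br a z = 0 := by rw [br_antisymm, hz, neg_zero]

lemma z3 (a b : A) : (3 : ℤ) • as a b z = 0 := by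
  have h := three_as hA a b z
  rw [br_z hz, br_z hz, br_z hz, mul_zero, zero_mul] at h
  have e : (3 : ℤ) • as a b z = as a b z + as a b z + as a b z := by abel
  rw [e, h]; abel

lemma z1 (a b : A) : (3 : ℤ) • as z a b = 0 := by rw [pc1 hA]; exact z3 hA hz a b
lemma z2 (a b : A) : (3 : ℤ) • as a z b = 0 := by rw [p12 hA, smul_neg, z1 hA hz, neg_zero]

lemma n1 (x y : A) : (3 : ℤ) • (z * x * y) = (3 : ℤ) • (z * (x * y)) := by
  have h := z1 hA hz x y
  unfold as at h
  rw [smul_sub] at h
  exact sub_eq_zero.mp h
lemma n2 (x y : A) : (3 : ℤ) • (x * z * y) = (3 : ℤ) • (x * (z * y)) := by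
  have h := z2 hA hz x y
  unfold as at h
  rw [smul_sub] at h
  exact sub_eq_zero.mp h
lemma n3 (x y : A) : (3 : ℤ) • (x * y * z) = (3 : ℤ) • (x * (y * z)) := by
  have h := z3 hA hz x y
  unfold as at h
  rw [smul_sub] at h
  exact sub_eq_zero.mp h

end z

section delta
variable {δ : A → A} (hadd : ∀ a b, δ (a + b) = δ a + δ b) (hder : ∀ a b, δ (a * b) = a * δ b + b * δ a)
  (hcom : ∀ a x, br (δ a) x = 0)
include hadd hder hcom

omit hA hder hcom in
lemma d_zero : δ 0 = 0 := by
  have h := hadd 0 0
  rw [add_zero] at h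
  exact (left_eq_add.mp h)
omit hA hder hcom in
lemma d_neg (a : A) : δ (-a) = - δ a := by
  have h := hadd a (-a)
  rw [add_neg_cancel, d_zero hadd] at h
  exact (neg_eq_of_add_eq_zero_right h.symm).symm
omit hA hcom in
lemma d_br (a b : A) : δ (br a b) = 0 := by
  unfold br
  rw [sub_eq_add_neg, hadd, d_neg hadd, hder, hder]
  abel

/-- `3 [b,a] δ(b) = 0` -/
lemma e1 (a b : A) : (3 : ℤ) • (br b a * δ b) = 0 := by
  have h : δ (a * b * b) = δ (a * (b * b)) := by rw [hA.right]
  rw [hder, hder a b, hder a (b * b), hder b b] at h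
  have h3 := congrArg (fun t => (3 : ℤ) • t) h
  simp only [mul_add, smul_add] at h3
  rw [← n3 hA (hcom b) b a, ← n3 hA (hcom a) b b, ← n3 hA (hcom b) a b] at h3
  unfold br
  rw [sub_mul, smul_sub]
  linear_combination (norm := abel) h3

/-- alternation -/
lemma e2 (a b c : A) : (3 : ℤ) • (br c a * δ b) = - ((3 : ℤ) • (br b a * δ c)) := by
  have h := e1 hA hadd hder hcom a (b + c)
  rw [br_add1, hadd] at h
  simp only [mul_add, add_mul, smul_add] at h
  rw [e1 hA hadd hder hcom a b, e1 hA hadd hder hcom a c] at h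
  linear_combination (norm := abel) h

lemma e4 (a b c d : A) : (3 : ℤ) • (br (br a c) b * δ d) = 0 := by
  rw [e2 hA hadd hder hcom, d_br hadd hder, mul_zero, smul_zero, neg_zero]

lemma e5 (a b c d : A) : (9 : ℤ) • (as a b c * δ d) = 0 := by
  have h0 := congrArg (fun t => (3 : ℤ) • (t * δ d)) (three_as hA a b c)
  simp only [add_mul, sub_mul, smul_add, smul_sub] at h0
  have key : ∀ a b, (3 : ℤ) • (br d c * (a * δ b)) = - ((3 : ℤ) • (a * br b c * δ d)) := by
    intro a b
    rw [← n3 hA (hcom b)]
    have e : br d c * a = a * br d c + br (br d c) a := by unfold br; abel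
    rw [e, add_mul, smul_add, e4 hA hadd hder hcom, add_zero, n3 hA (hcom b), ← mul_smul_comm,
      e2 hA hadd hder hcom c b d, mul_neg, mul_smul_comm, ← n3 hA (hcom d)]
  have h1 : (3 : ℤ) • (br (a * b) c * δ d) = (3 : ℤ) • (a * br b c * δ d) + (3 : ℤ) • (b * br a c * δ d) := by
    rw [e2 hA hadd hder hcom, hder, mul_add, smul_add, key, key]
    abel
  have h2 : (3 : ℤ) • (b * br a c * δ d) = (3 : ℤ) • (br a c * b * δ d) := by
    have := e4 hA hadd hder hcom a b c d
    have e : br (br a c) b = br a c * b - b * br a c := rfl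
    rw [e, sub_mul, smul_sub] at this
    exact (sub_eq_zero.mp this).symm
  rw [h1, h2] at h0
  linear_combination (norm := abel) h0

end delta
end basic

/-! ### from `n` to `n + 2` -/
section step
variable {Φ : Type} [CommRing Φ] {A : Type} [NonUnitalNonAssocRing A] [Module Φ A] [IsScalarTower Φ A A]
  [SMulCommClass Φ A A] (hA : IsAlt A) {n : ℕ} {f : (Fin n → A) → A}

/-- the first `n` arguments -/
def ini (v : Fin (n + 2) → A) : Fin n → A := fun i => v (Fin.castAdd 2 i)

/-- `3 f(v_0,...,v_{n-1}) [v_n, v_{n+1}]` -/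
def nxt (f : (Fin n → A) → A) (v : Fin (n + 2) → A) : A :=
  (3 : ℤ) • (f (ini v) * br (v (Fin.natAdd n 0)) (v (Fin.natAdd n 1)))

lemma ini_upd1 (v : Fin (n + 2) → A) (i : Fin n) (a : A) :
    ini (Function.update v (Fin.castAdd 2 i) a) = Function.update (ini v) i a := by
  funext j
  unfold ini
  by_cases h : j = i
  · subst h; simp
  · rw [Function.update_of_ne h, Function.update_of_ne]
    intro h2
    exact h (Fin.castAdd_injective _ _ h2)

lemma ini_upd2 (v : Fin (n + 2) → A) (k : Fin 2) (a : A) :
    ini (Function.update v (Fin.natAdd n k) a) = ini v := by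
  funext j
  unfold ini
  rw [Function.update_of_ne]
  intro h2
  have := congrArg Fin.val h2
  simp at this
  have hj := j.isLt
  omega

lemma upd1 (v : Fin (n + 2) → A) (i : Fin n) (k : Fin 2) (a : A) :
    Function.update v (Fin.castAdd 2 i) a (Fin.natAdd n k) = v (Fin.natAdd n k) := by
  rw [Function.update_of_ne]
  intro h2
  have := congrArg Fin.val h2
  simp at this
  have hj := i.isLt
  omega

lemma upd2 (v : Fin (n + 2) → A) (a : A) (k l : Fin 2) (h : l ≠ k) :
    Function.update v (Fin.natAdd n k) a (Fin.natAdd n l) = v (Fin.natAdd n l) := by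
  rw [Function.update_of_ne]
  intro h2
  exact h (Fin.natAdd_injective _ _ h2)

lemma fin_cases2 (i : Fin (n + 2)) : (∃ j : Fin n, i = Fin.castAdd 2 j) ∨ i = Fin.natAdd n (0 : Fin 2) ∨
    i = Fin.natAdd n (1 : Fin 2) := by
  refine Fin.addCases (fun j => Or.inl ⟨j, rfl⟩) (fun k => ?_) i
  fin_cases k
  · exact Or.inr (Or.inl rfl)
  · exact Or.inr (Or.inr rfl)

lemma nxt_upd1 (f : (Fin n → A) → A) (v : Fin (n + 2) → A) (i : Fin n) (a : A) :
    nxt f (Function.update v (Fin.castAdd 2 i) a) =
      (3 : ℤ) • (f (Function.update (ini v) i a) * br (v (Fin.natAdd n 0)) (v (Fin.natAdd n 1))) := by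
  unfold nxt
  rw [ini_upd1, upd1, upd1]

lemma nxt_upd2 (f : (Fin n → A) → A) (v : Fin (n + 2) → A) (a : A) :
    nxt f (Function.update v (Fin.natAdd n 0) a) =
      (3 : ℤ) • (f (ini v) * br a (v (Fin.natAdd n 1))) := by
  unfold nxt
  rw [ini_upd2, Function.update_self, upd2 v a 0 1 (by decide)]

lemma nxt_upd3 (f : (Fin n → A) → A) (v : Fin (n + 2) → A) (a : A) :
    nxt f (Function.update v (Fin.natAdd n 1) a) =
      (3 : ℤ) • (f (ini v) * br (v (Fin.natAdd n 0)) a) := by
  unfold nxt
  rw [ini_upd2, Function.update_self, upd2 v a 1 0 (by decide)]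

variable (hf : AD Φ A n f)
include hA hf

lemma f_e1 (v : Fin n → A) (i : Fin n) (a : A) : (3 : ℤ) • (f v * br (v i) a) = 0 := by
  have h := e1 hA (δ := fun x => f (Function.update v i x)) (hf.add v i) (hf.der v i)
    (fun x y => hf.com _ y) a (v i)
  simp only [Function.update_eq_self] at h
  rw [cm (hf.com v)]
  exact h

lemma f_e4 (hn : 0 < n) (v : Fin n → A) (a b c : A) : (3 : ℤ) • (f v * br (br a c) b) = 0 := by
  have h := e4 hA (δ := fun x => f (Function.update v ⟨0, hn⟩ x)) (hf.add v _) (hf.der v _)
    (fun x y => hf.com _ y) a b c (v ⟨0, hn⟩)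
  simp only [Function.update_eq_self] at h
  rw [cm (hf.com v)]
  exact h

lemma f_e5 (hn : 0 < n) (v : Fin n → A) (a b c : A) : (9 : ℤ) • (f v * as a b c) = 0 := by
  have h := e5 hA (δ := fun x => f (Function.update v ⟨0, hn⟩ x)) (hf.add v _) (hf.der v _)
    (fun x y => hf.com _ y) a b c (v ⟨0, hn⟩)
  simp only [Function.update_eq_self] at h
  rw [cm (hf.com v)]
  exact h

lemma f_der (hn : 0 < n) (v : Fin n → A) (a b q : A) :
    (3 : ℤ) • (f v * br (a * b) q) = a * ((3 : ℤ) • (f v * br b q)) + b * ((3 : ℤ) • (f v * br a q)) := by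
  have h0 : br (a * b) q = as a b q + as a b q + as a b q + (a * br b q + br a q * b) := by
    rw [three_as hA]; abel
  have e9 : (3 : ℤ) • (f v * (as a b q + as a b q + as a b q)) = 0 := by
    have h := f_e5 hA hf hn v a b q
    simp only [mul_add, smul_add]
    linear_combination (norm := abel) h
  rw [h0, mul_add, smul_add, e9, zero_add, mul_add, smul_add]
  congr 1
  · rw [← n1 hA (hf.com v), cm (hf.com v), n2 hA (hf.com v), mul_smul_comm]
  · rw [mul_smul_comm, ← n2 hA (hf.com v) b (br a q), ← cm (hf.com v) b, n1 hA (hf.com v)]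
    have h := f_e4 hA hf hn v a b q
    have e : br (br a q) b = br a q * b - b * br a q := rfl
    rw [e, mul_sub, smul_sub] at h
    exact sub_eq_zero.mp h

/-- Theorem A -/
theorem AD_step (hn : 0 < n) : AD Φ A (n + 2) (nxt f) where
  add := by
    intro v i a b
    rcases fin_cases2 i with ⟨j, rfl⟩ | rfl | rfl
    · rw [nxt_upd1, nxt_upd1, nxt_upd1, hf.add, add_mul, smul_add]
    · rw [nxt_upd2, nxt_upd2, nxt_upd2, br_add1, mul_add, smul_add]
    · rw [nxt_upd3, nxt_upd3, nxt_upd3, br_antisymm, br_add1, br_antisymm a, br_antisymm b]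
      simp only [mul_add, smul_add, neg_add, neg_neg]
  smul := by
    intro v i r a
    have e1 : ∀ q, br (r • a) q = r • br a q := by
      intro q; unfold br; rw [smul_mul_assoc, mul_smul_comm, smul_sub]
    have e2 : ∀ q, br q (r • a) = r • br q a := by
      intro q; unfold br; rw [smul_mul_assoc, mul_smul_comm, smul_sub]
    rcases fin_cases2 i with ⟨j, rfl⟩ | rfl | rfl
    · rw [nxt_upd1, nxt_upd1, hf.smul, smul_mul_assoc, smul_comm]
    · rw [nxt_upd2, nxt_upd2, e1, mul_smul_comm, smul_comm]
    · rw [nxt_upd3, nxt_upd3, e2, mul_smul_comm, smul_comm]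
  alt := by
    have key : ∀ (v : Fin (n + 2) → A) (i : Fin n) (k : Fin 2), v (Fin.castAdd 2 i) = v (Fin.natAdd n k) →
        nxt f v = 0 := by
      intro v i k h
      have hi : ini v i = v (Fin.natAdd n k) := h
      unfold nxt
      fin_cases k
      · have hi' : v (Fin.natAdd n 0) = ini v i := hi.symm
        rw [hi']
        exact f_e1 hA hf (ini v) i _
      · have hi' : v (Fin.natAdd n 1) = ini v i := hi.symm
        rw [hi', br_antisymm, mul_neg, smul_neg, f_e1 hA hf (ini v) i _, neg_zero]
    intro v i j hij h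
    rcases fin_cases2 i with ⟨i', rfl⟩ | hi | hi <;> rcases fin_cases2 j with ⟨j', rfl⟩ | hj | hj
    · unfold nxt
      rw [hf.alt (ini v) i' j' (fun e => hij (by rw [e])) h, zero_mul, smul_zero]
    · subst hj; exact key v i' 0 h
    · subst hj; exact key v i' 1 h
    · subst hi; exact key v j' 0 h.symm
    · exact absurd (hi.trans hj.symm) hij
    · subst hi; subst hj
      unfold nxt
      rw [h]; unfold br; rw [sub_self, mul_zero, smul_zero]
    · subst hi; exact key v j' 1 h.symm
    · subst hi; subst hj
      unfold nxt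
      rw [h]; unfold br; rw [sub_self, mul_zero, smul_zero]
    · exact absurd (hi.trans hj.symm) hij
  der := by
    intro v i a b
    rcases fin_cases2 i with ⟨j, rfl⟩ | rfl | rfl
    · rw [nxt_upd1, nxt_upd1, nxt_upd1, hf.der, add_mul, smul_add, n2 hA (hf.com _), n2 hA (hf.com _),
        mul_smul_comm, mul_smul_comm]
    · rw [nxt_upd2, nxt_upd2, nxt_upd2]
      exact f_der hA hf hn _ a b _
    · rw [nxt_upd3, nxt_upd3, nxt_upd3, br_antisymm, br_antisymm _ a, br_antisymm _ b]
      simp only [mul_neg, smul_neg]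
      rw [f_der hA hf hn _ a b _]
      abel
  com := by
    intro v b
    unfold nxt
    set z := f (ini v) with hz
    have hzc : ∀ a, br z a = 0 := hf.com _
    set u := br (v (Fin.natAdd n 0)) (v (Fin.natAdd n 1)) with hu
    unfold br
    rw [smul_mul_assoc, mul_smul_comm, n1 hA hzc, ← n2 hA hzc b u, ← cm hzc b, n1 hA hzc, ← smul_sub, ← mul_sub]
    exact f_e4 hA hf hn (ini v) _ b _

end step

/-! ### vanishing -/
section vanish
variable {Φ : Type} [CommRing Φ] {A : Type} [NonUnitalNonAssocRing A] [Module Φ A] [IsScalarTower Φ A A]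
  [SMulCommClass Φ A A] {n : ℕ} {f : (Fin n → A) → A}

/-- Theorem B: a function with `n` alternating derivation arguments vanishes on algebras with fewer than `n`
generators -/
theorem AD_vanish (hf : AD Φ A n f) {m : ℕ} (hm : m < n) (x : Fin m → A)
    (hx : NonUnitalAlgebra.adjoin Φ (Set.range x) = ⊤) (v : Fin n → A) : f v = 0 := by
  have key : ∀ k : ℕ, ∀ v : Fin n → A, (∀ i : Fin n, k ≤ i.val → v i ∈ Set.range x) → f v = 0 := by
    intro k
    induction k with
    | zero =>
      intro v hv
      choose g hg using fun i => hv i (Nat.zero_le _)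
      obtain ⟨i, j, hij, h⟩ := Fintype.exists_ne_map_eq_of_card_lt g (by simpa using hm)
      exact hf.alt v i j hij (by rw [← hg i, ← hg j, h])
    | succ k ih =>
      intro v hv
      by_cases hk : k < n
      · have h : ∀ y ∈ NonUnitalAlgebra.adjoin Φ (Set.range x), f (Function.update v ⟨k, hk⟩ y) = 0 := by
          intro y hy
          refine NonUnitalAlgebra.adjoin_induction (p := fun y _ => f (Function.update v ⟨k, hk⟩ y) = 0)
            ?_ ?_ ?_ ?_ ?_ hy
          · intro y hy
            apply ih
            intro i hi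
            by_cases hik : i = ⟨k, hk⟩
            · rw [hik, Function.update_self]; exact hy
            · rw [Function.update_of_ne hik]
              apply hv
              have : i.val ≠ k := fun e => hik (Fin.ext e)
              omega
          · intro a b _ _ ha hb
            rw [hf.add, ha, hb, add_zero]
          · have h0 := hf.smul v ⟨k, hk⟩ (0 : Φ) 0
            rw [zero_smul, zero_smul] at h0
            exact h0
          · intro a b _ _ ha hb
            rw [hf.der, ha, hb, mul_zero, mul_zero, add_zero]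
          · intro r a _ ha
            rw [hf.smul, ha, smul_zero]
        have := h (v ⟨k, hk⟩) (by rw [hx]; exact NonUnitalAlgebra.mem_top)
        rwa [Function.update_eq_self] at this
      · exact ih v (fun i hi => absurd i.isLt (by omega))
  exact key n v (fun i hi => absurd i.isLt (by omega))

end vanish

end Pool.Agent.Helper817.Chain
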