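import Pool.Agent.Helper817.Chain.Tab
set_option autoImplicit false

/-! Structure constants of a superalgebra of rank 24. -/

namespace Pool.Agent.Helper817.Chain.D5
open Pool.Agent.Helper805.Mod.Sparse Pool.Agent.Helper817.Chain.Tab

noncomputable def r0 : Tb SV := (Tb.n (Tb.n (Tb.n (Tb.n (Tb.n (Tb.l (SV.p 0 1 SV.nil)) (Tb.l (SV.p 16 1 SV.nil))) (Tb.n (Tb.l (SV.p 8 1 SV.nil)) Tb.e)) (Tb.n (Tb.n (Tb.l (SV.p 4 1 SV.nil)) (Tb.l (SV.p 20 1 SV.nil))) (Tb.n (Tb.l (SV.p 12 1 SV.nil)) Tb.e))) (Tb.n (Tb.n (Tb.n (Tb.l (SV.p 2 1 SV.nil)) (Tb.l (SV.p 18 1 SV.nil))) (Tb.n (Tb.l (SV.p 10 1 SV.nil)) Tb.e)) (Tb.n (Tb.n (Tb.l (SV.p 6 1 SV.nil)) (Tb.l (SV.p 22 1 SV.nil))) (Tb.n (Tb.l (SV.p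 14 1 SV.nil)) Tb.e)))) (Tb.n (Tb.n (Tb.n (Tb.n (Tb.l (SV.p 1 1 SV.nil)) (Tb.l (SV.p 17 1 SV.nil))) (Tb.n (Tb.l (SV.p 9 1 SV.nil)) Tb.e)) (Tb.n (Tb.n (Tb.l (SV.p 5 1 SV.nil)) (Tb.l (SV.p 21 1 SV.nil))) (Tb.n (Tb.l (SV.p 13 1 SV.nil)) Tb.e))) (Tb.n (Tb.n (Tb.n (Tb.l (SV.p 3 1 SV.nil)) (Tb.l (SV.p 19 1 SV.nil))) (Tb.n (Tb.l (SV.p 11 1 SV.nil)) Tb.e)) (Tb.n (Tb.n (Tb.l (SV.p 7 1 SV.nil)) (Tb.l (SV.p 23 1 SV.nil))) (Tb.n (Tb.l (SV.p 15 1 SV.nil)) Tb.e)))))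

noncomputable def r1 : Tb SV := (Tb.n (Tb.n (Tb.n (Tb.n (Tb.n (Tb.l (SV.p 1 1 SV.nil)) (Tb.l (SV.p 14 1 (SV.n 21 1 SV.nil)))) (Tb.n (Tb.l (SV.p 6 1 (SV.n 10 1 SV.nil))) Tb.e)) (Tb.n (Tb.n (Tb.l (SV.p 2 1 (SV.n 6 1 SV.nil))) (Tb.l (SV.p 17 1 (SV.p 21 2 SV.nil)))) (Tb.n (Tb.l (SV.p 10 1 SV.nil)) Tb.e))) (Tb.n (Tb.n (Tb.n (Tb.l (SV.p 4 1 SV.nil)) (Tb.l (SV.p 15 1 (SV.n 23 1 SV.nil)))) (Tb.n (Tb.l (SV.p 12 1 SV.nil)) Tb.e)) (Tb.n (Tb.n (Tb.l (SV.p 8 1 SV.nil)) (Tb.l (SV.p 19 1 (SV.p 23 2 SV.nil)))) (Tb.n (Tb.l (SV.p 16 2 (SV.n 23 1 SV.nil))) Tb.e)))) (Tb.n (Tb.n (Tb.n (Tb.n (Tb.l (SV.p 0 1 SV.nil)) (Tb.l (SV.n 16 1 (SV.p 20 2 (SV.p 23 2 SV.nil))))) (Tb.n (Tb.l (SV.p 7 1 (SV.n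 11 1 SV.nil))) Tb.e)) (Tb.n (Tb.n (Tb.l (SV.p 3 1 (SV.n 7 1 SV.nil))) (Tb.l (SV.n 20 1 (SV.n 23 1 SV.nil)))) (Tb.n (Tb.l (SV.p 11 1 SV.nil)) Tb.e))) (Tb.n (Tb.n (Tb.n (Tb.l (SV.p 5 1 SV.nil)) (Tb.l (SV.n 18 1 (SV.p 21 2 (SV.p 22 2 SV.nil))))) (Tb.n (Tb.l (SV.p 13 1 SV.nil)) Tb.e)) (Tb.n (Tb.n (Tb.l (SV.p 9 1 SV.nil)) (Tb.l (SV.n 21 1 (SV.n 22 1 SV.nil)))) (Tb.n (Tb.l (SV.p 18 2 (SV.n 21 1 SV.nil))) Tb.e)))))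

noncomputable def r2 : Tb SV := (Tb.n (Tb.n (Tb.n (Tb.n (Tb.n (Tb.l (SV.p 2 1 SV.nil)) Tb.e) (Tb.n (Tb.l (SV.p 14 3 (SV.n 18 2 (SV.n 21 3 (SV.n 22 1 SV.nil))))) Tb.e)) (Tb.n (Tb.n (Tb.l (SV.p 14 2 (SV.p 17 6 (SV.n 18 1 (SV.p 21 7 (SV.n 22 4 SV.nil)))))) Tb.e) (Tb.n (Tb.l (SV.p 14 1 (SV.p 17 1 (SV.n 18 3 (SV.p 21 1 (SV.n 22 3 SV.nil)))))) Tb.e))) (Tb.n (Tb.n (Tb.n (Tb.l (SV.p 15 1 (SV.n 16 1 (SV.p 20 1 (SV.p 23 2 SV.nil))))) Tb.e) (Tb.n (Tb.l (SV.p 15 3 (SV.n 16 3 (SV.n 19 1 (SV.p 20 1 (SV.n 23 5 SV.nil)))))) Tb.e)) (Tb.n (Tb.n (Tb.l (SV.p 15 3 (SV.n 16 3 (SV.p 19 6 (SV.n 20 6 (SV.p 23 5 SV.nil)))))) Tb.e) Tb.e))) (Tb.n (Tb.n (Tb.n (Tb.n (Tb.l (SV.p 3 1 SV.nil)) Tb.e) (Tb.n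 (Tb.l (SV.n 15 1 (SV.p 16 1 (SV.n 19 2 (SV.n 23 3 SV.nil))))) Tb.e)) (Tb.n (Tb.n (Tb.l (SV.p 15 2 (SV.p 16 1 (SV.p 19 1 (SV.p 20 1 (SV.p 23 1 SV.nil)))))) Tb.e) (Tb.n (Tb.l (SV.n 15 1 (SV.n 16 1 (SV.n 19 1 (SV.n 20 1 (SV.n 23 1 SV.nil)))))) Tb.e))) (Tb.n (Tb.n (Tb.n (Tb.l (SV.p 14 3 (SV.p 17 4 (SV.n 18 2 (SV.p 21 4 (SV.n 22 4 SV.nil)))))) Tb.e) (Tb.n (Tb.l (SV.p 14 5 (SV.p 17 1 (SV.n 18 5 (SV.n 21 3 (SV.n 22 1 SV.nil)))))) Tb.e)) (Tb.n (Tb.n (Tb.l (SV.p 14 4 (SV.p 17 5 (SV.n 18 5 (SV.p 21 2 (SV.n 22 6 SV.nil)))))) Tb.e) Tb.e))))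

noncomputable def r3 : Tb SV := (Tb.n (Tb.n (Tb.n (Tb.n (Tb.n (Tb.l (SV.p 3 1 SV.nil)) Tb.e) (Tb.n (Tb.l (SV.p 15 2 (SV.n 16 3 (SV.p 19 7 (SV.n 20 8 (SV.p 23 8 SV.nil)))))) Tb.e)) (Tb.n (Tb.n (Tb.l (SV.n 15 3 (SV.p 16 5 (SV.n 19 6 (SV.p 20 7 (SV.n 23 2 SV.nil)))))) Tb.e) (Tb.n (Tb.l (SV.p 15 1 (SV.n 16 1 (SV.n 19 3 (SV.p 20 3 (SV.n 23 7 SV.nil)))))) Tb.e))) (Tb.n (Tb.n (Tb.n (Tb.l (SV.p 17 2 (SV.p 18 1 (SV.p 21 5 (SV.p 22 2 SV.nil))))) Tb.e) (Tb.n (Tb.l (SV.n 14 1 (SV.n 17 1 (SV.n 18 1 (SV.n 21 1 (SV.n 22 1 SV.nil)))))) Tb.e)) (Tb.n (Tb.n (Tb.l (SV.p 14 2 (SV.p 17 1 (SV.n 22 1 SV.nil)))) Tb.e) Tb.e))) (Tb.n (Tb.n (Tb.n (Tb.n (Tb.l (SV.p 2 1 (SV.p 6 1 SV.nil))) Tb.e) (Tb.n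 (Tb.l (SV.n 14 1 (SV.p 17 2 (SV.n 18 1 (SV.p 21 1 (SV.n 22 4 SV.nil)))))) Tb.e)) (Tb.n (Tb.n (Tb.l (SV.n 17 1 (SV.p 18 1 (SV.p 21 1 (SV.p 22 1 SV.nil))))) Tb.e) (Tb.n (Tb.l (SV.p 14 3 (SV.n 17 1 (SV.n 18 3 (SV.n 21 5 (SV.p 22 1 SV.nil)))))) Tb.e))) (Tb.n (Tb.n (Tb.n (Tb.l (SV.p 15 2 (SV.p 19 3 (SV.p 23 5 SV.nil)))) Tb.e) (Tb.n (Tb.l (SV.p 15 1 (SV.n 16 3 (SV.p 19 1 (SV.n 20 3 (SV.p 23 1 SV.nil)))))) Tb.e)) (Tb.n (Tb.n (Tb.l (SV.p 16 1 (SV.p 19 1 (SV.n 20 2 (SV.p 23 2 SV.nil))))) Tb.e) Tb.e))))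

noncomputable def r4 : Tb SV := (Tb.n (Tb.n (Tb.n (Tb.n (Tb.n (Tb.l (SV.p 4 1 SV.nil)) Tb.e) (Tb.n (Tb.l (SV.p 16 3 (SV.n 19 1 (SV.p 20 2 (SV.n 23 2 SV.nil))))) Tb.e)) (Tb.n (Tb.n (Tb.l (SV.n 15 2 (SV.p 16 1 (SV.n 19 4 (SV.p 20 5 (SV.n 23 3 SV.nil)))))) Tb.e) (Tb.n (Tb.l (SV.n 15 5 (SV.p 16 3 (SV.n 19 5 (SV.p 20 3 (SV.n 23 5 SV.nil)))))) Tb.e))) (Tb.n (Tb.n (Tb.n (Tb.l (SV.n 14 3 (SV.n 17 3 (SV.p 18 4 (SV.n 21 2 (SV.p 22 4 SV.nil)))))) Tb.e) (Tb.n (Tb.l (SV.n 14 5 (SV.n 17 1 (SV.p 18 9 (SV.p 21 3 (SV.p 22 5 SV.nil)))))) Tb.e)) (Tb.n (Tb.n (Tb.l (SV.n 14 4 (SV.n 17 5 (SV.p 18 2 (SV.n 21 2 (SV.p 22 7 SV.nil)))))) Tb.e) Tb.e))) (Tb.n (Tb.n (Tb.n (Tb.n (Tb.l (SV.p 5 1 (SV.p 6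 1 SV.nil))) Tb.e) (Tb.n (Tb.l (SV.p 14 1 (SV.n 17 2 (SV.n 18 1 (SV.n 21 5 SV.nil))))) Tb.e)) (Tb.n (Tb.n (Tb.l (SV.p 14 2 (SV.p 17 1 (SV.p 18 1 (SV.n 21 1 SV.nil))))) Tb.e) (Tb.n (Tb.l (SV.n 14 3 (SV.n 17 3 (SV.p 18 1 (SV.n 21 3 (SV.p 22 1 SV.nil)))))) Tb.e))) (Tb.n (Tb.n (Tb.n (Tb.l (SV.n 15 2 (SV.p 16 1 (SV.n 19 2 (SV.p 20 3 (SV.n 23 1 SV.nil)))))) Tb.e) (Tb.n (Tb.l (SV.n 15 3 (SV.p 16 7 (SV.p 19 1 (SV.p 20 3 (SV.p 23 5 SV.nil)))))) Tb.e)) (Tb.n (Tb.n (Tb.l (SV.n 15 4 (SV.p 16 3 (SV.n 19 3 (SV.p 20 6 (SV.p 23 2 SV.nil)))))) Tb.e) Tb.e))))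

noncomputable def r5 : Tb SV := (Tb.n (Tb.n (Tb.n (Tb.n (Tb.n (Tb.l (SV.p 5 1 SV.nil)) Tb.e) (Tb.n (Tb.l (SV.p 14 1 (SV.n 17 2 (SV.n 18 4 (SV.n 21 1 (SV.p 22 3 SV.nil)))))) Tb.e)) (Tb.n (Tb.n (Tb.l (SV.p 17 1 (SV.p 18 3 (SV.n 21 1 (SV.n 22 4 SV.nil))))) Tb.e) (Tb.n (Tb.l (SV.n 14 3 (SV.p 17 1 (SV.p 18 7 (SV.p 21 5 (SV.p 22 3 SV.nil)))))) Tb.e))) (Tb.n (Tb.n (Tb.n (Tb.l (SV.p 15 1 (SV.n 16 1 (SV.n 23 2 SV.nil)))) Tb.e) (Tb.n (Tb.l (SV.p 15 1 (SV.n 16 3 (SV.p 19 1 (SV.n 20 3 (SV.p 23 1 SV.nil)))))) Tb.e)) (Tb.n (Tb.n (Tb.l (SV.n 15 1 (SV.p 16 3 (SV.p 23 1 SV.nil)))) Tb.e) Tb.e))) (Tb.n (Tb.n (Tb.n (Tb.n (Tb.l (SV.p 4 1 (SV.n 7 1 (SV.p 8 1 SV.nil)))) Tb.e) (Tb.n (Tb.l (SV.n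 15 1 (SV.n 16 1 (SV.n 19 2 (SV.p 20 4 (SV.p 23 1 SV.nil)))))) Tb.e)) (Tb.n (Tb.n (Tb.l (SV.p 15 1 (SV.n 20 1 (SV.n 23 4 SV.nil)))) Tb.e) (Tb.n (Tb.l (SV.n 15 1 (SV.p 16 5 (SV.p 19 3 (SV.p 20 1 (SV.p 23 7 SV.nil)))))) Tb.e))) (Tb.n (Tb.n (Tb.n (Tb.l (SV.p 18 1 (SV.n 21 1 (SV.p 22 1 SV.nil)))) Tb.e) (Tb.n (Tb.l (SV.n 14 1 (SV.n 17 1 (SV.n 18 1 (SV.n 21 1 (SV.n 22 1 SV.nil)))))) Tb.e)) (Tb.n (Tb.n (Tb.l (SV.n 17 1 (SV.n 18 1 (SV.n 21 2 (SV.n 22 2 SV.nil))))) Tb.e) Tb.e))))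

noncomputable def r6 : Tb SV := (Tb.n (Tb.n (Tb.n (Tb.n (Tb.n (Tb.l (SV.p 6 1 SV.nil)) Tb.e) (Tb.n (Tb.l (SV.n 14 4 (SV.n 17 4 (SV.p 18 4 (SV.n 21 4 (SV.p 22 4 SV.nil)))))) Tb.e)) (Tb.n (Tb.n (Tb.l (SV.p 14 1 (SV.p 17 1 (SV.n 18 1 (SV.p 21 1 (SV.p 22 1 SV.nil)))))) Tb.e) Tb.e)) (Tb.n (Tb.n (Tb.n (Tb.l (SV.n 15 4 (SV.p 16 5 (SV.n 19 4 (SV.p 20 5 SV.nil))))) Tb.e) (Tb.n (Tb.l (SV.n 15 4 (SV.p 16 4 (SV.n 19 4 (SV.p 20 4 (SV.n 23 4 SV.nil)))))) Tb.e)) Tb.e)) (Tb.n (Tb.n (Tb.n (Tb.n (Tb.l (SV.p 7 1 SV.nil)) Tb.e) Tb.e) (Tb.n (Tb.n (Tb.l (SV.n 16 1 (SV.p 19 2 (SV.n 20 1 (SV.p 23 4 SV.nil))))) Tb.e) Tb.e)) (Tb.n (Tb.n (Tb.n (Tb.l (SV.n 14 3 (SV.n 17 5 (SV.p 18 3 (SV.n 21 3 (SV.p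 22 5 SV.nil)))))) Tb.e) (Tb.n (Tb.l (SV.n 14 4 (SV.n 17 4 (SV.p 18 4 (SV.n 21 4 (SV.p 22 4 SV.nil)))))) Tb.e)) (Tb.n (Tb.n (Tb.l (SV.n 14 4 (SV.n 17 4 (SV.p 18 4 (SV.n 21 4 (SV.p 22 4 SV.nil)))))) Tb.e) Tb.e))))

noncomputable def r7 : Tb SV := (Tb.n (Tb.n (Tb.n (Tb.n (Tb.n (Tb.l (SV.p 7 1 SV.nil)) Tb.e) (Tb.n (Tb.l (SV.p 15 4 (SV.n 16 4 (SV.p 19 4 (SV.n 20 4 (SV.p 23 4 SV.nil)))))) Tb.e)) (Tb.n (Tb.n (Tb.l (SV.n 15 5 (SV.p 16 5 (SV.n 19 3 (SV.p 20 3 (SV.p 23 3 SV.nil)))))) Tb.e) (Tb.n (Tb.l (SV.n 15 4 (SV.p 16 4 (SV.n 19 4 (SV.p 20 4 (SV.n 23 4 SV.nil)))))) Tb.e))) (Tb.n (Tb.n (Tb.n (Tb.l (SV.p 17 2 (SV.p 18 1 (SV.p 21 4 (SV.p 22 1 SV.nil))))) Tb.e) Tb.e) Tb.e)) (Tb.n (Tb.n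 (Tb.n (Tb.n (Tb.l (SV.p 6 1 (SV.p 10 1 SV.nil))) Tb.e) Tb.e) (Tb.n (Tb.n (Tb.l (SV.p 18 1 (SV.p 21 4 (SV.p 22 1 SV.nil)))) Tb.e) (Tb.n (Tb.l (SV.n 14 4 (SV.n 17 4 (SV.p 18 4 (SV.n 21 4 (SV.p 22 4 SV.nil)))))) Tb.e))) (Tb.n (Tb.n (Tb.n (Tb.l (SV.p 15 1 (SV.n 16 1 (SV.p 19 1 (SV.p 20 1 (SV.p 23 1 SV.nil)))))) Tb.e) Tb.e) Tb.e)))

noncomputable def r8 : Tb SV := (Tb.n (Tb.n (Tb.n (Tb.n (Tb.n (Tb.l (SV.p 8 1 SV.nil)) Tb.e) (Tb.n (Tb.l (SV.p 15 4 (SV.n 16 4 (SV.p 19 4 (SV.n 20 4 (SV.p 23 4 SV.nil)))))) Tb.e)) (Tb.n (Tb.n (Tb.l (SV.n 15 2 (SV.p 16 1 (SV.p 19 2 (SV.n 20 1 (SV.p 23 6 SV.nil)))))) Tb.e) Tb.e)) (Tb.n (Tb.n (Tb.n (Tb.l (SV.p 14 4 (SV.p 17 6 (SV.n 18 2 (SV.p 21 4 (SV.n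 22 8 SV.nil)))))) Tb.e) (Tb.n (Tb.l (SV.p 14 4 (SV.p 17 4 (SV.n 18 4 (SV.p 21 4 (SV.n 22 4 SV.nil)))))) Tb.e)) (Tb.n (Tb.n (Tb.l (SV.p 14 4 (SV.p 17 4 (SV.n 18 4 (SV.p 21 4 (SV.n 22 4 SV.nil)))))) Tb.e) Tb.e))) (Tb.n (Tb.n (Tb.n (Tb.n (Tb.l (SV.p 9 1 (SV.p 10 1 SV.nil))) Tb.e) Tb.e) (Tb.n (Tb.n (Tb.l (SV.n 14 2 (SV.p 21 2 SV.nil))) Tb.e) Tb.e)) (Tb.n (Tb.n (Tb.n (Tb.l (SV.p 15 4 (SV.n 16 1 (SV.p 19 4 (SV.n 20 5 SV.nil))))) Tb.e) (Tb.n (Tb.l (SV.p 15 4 (SV.n 16 4 (SV.p 19 4 (SV.n 20 4 (SV.p 23 4 SV.nil)))))) Tb.e)) (Tb.n (Tb.n (Tb.l (SV.p 15 4 (SV.n 16 4 (SV.p 19 4 (SV.n 20 4 (SV.p 23 4 SV.nil)))))) Tb.e) Tb.e))))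

noncomputable def r9 : Tb SV := (Tb.n (Tb.n (Tb.n (Tb.n (Tb.n (Tb.l (SV.p 9 1 SV.nil)) Tb.e) Tb.e) (Tb.n (Tb.n (Tb.l (SV.n 18 3 (SV.n 21 4 (SV.n 22 7 SV.nil)))) Tb.e) (Tb.n (Tb.l (SV.p 14 4 (SV.p 17 4 (SV.n 18 4 (SV.p 21 4 (SV.n 22 4 SV.nil)))))) Tb.e))) (Tb.n (Tb.n (Tb.n (Tb.l (SV.n 16 2 (SV.n 19 2 (SV.p 20 2 (SV.n 23 4 SV.nil))))) Tb.e) Tb.e) Tb.e)) (Tb.n (Tb.n (Tb.n (Tb.n (Tb.l (SV.p 8 1 (SV.n 11 1 (SV.p 12 1 SV.nil)))) Tb.e) Tb.e) (Tb.n (Tb.n (Tb.l (SV.n 19 2 (SV.n 20 2 (SV.n 23 8 SV.nil)))) Tb.e) (Tb.n (Tb.l (SV.p 15 4 (SV.n 16 4 (SV.p 19 4 (SV.n 20 4 (SV.p 23 4 SV.nil)))))) Tb.e))) (Tb.n (Tb.n (Tb.n (Tb.l (SV.p 18 1 (SV.p 22 3 SV.nil))) Tb.e) Tb.e) Tb.e)))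

noncomputable def r10 : Tb SV := (Tb.n (Tb.n (Tb.n (Tb.n (Tb.n (Tb.l (SV.p 10 1 SV.nil)) Tb.e) Tb.e) (Tb.n (Tb.n (Tb.l (SV.p 14 4 (SV.p 17 4 (SV.n 18 2 (SV.p 21 4 (SV.n 22 2 SV.nil)))))) Tb.e) Tb.e)) (Tb.n (Tb.n (Tb.n (Tb.l (SV.p 19 4 (SV.n 20 4 (SV.p 23 8 SV.nil)))) Tb.e) Tb.e) (Tb.n (Tb.n (Tb.l (SV.p 15 4 (SV.n 16 4 (SV.p 19 4 (SV.n 20 4 (SV.p 23 4 SV.nil)))))) Tb.e) Tb.e))) (Tb.n (Tb.n (Tb.n (Tb.n (Tb.l (SV.p 11 1 SV.nil)) Tb.e) Tb.e) (Tb.n (Tb.n (Tb.l (SV.p 15 2 (SV.p 19 2 (SV.p 23 2 SV.nil)))) Tb.e) Tb.e)) (Tb.n (Tb.n (Tb.n (Tb.l (SV.p 14 2 (SV.p 17 6 (SV.n 18 2 (SV.p 21 10 (SV.n 22 6 SV.nil)))))) Tb.e) Tb.e) (Tb.n (Tb.n (Tb.l (SV.p 14 4 (SV.p 17 4 (SV.n 18 4 (SV.p 21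 4 (SV.n 22 4 SV.nil)))))) Tb.e) Tb.e))))

noncomputable def r11 : Tb SV := (Tb.n (Tb.n (Tb.n (Tb.n (Tb.n (Tb.l (SV.p 11 1 SV.nil)) Tb.e) (Tb.n (Tb.l (SV.p 15 4 (SV.n 16 4 (SV.p 19 4 (SV.n 20 4 (SV.p 23 4 SV.nil)))))) Tb.e)) (Tb.n (Tb.n (Tb.l (SV.n 15 2 (SV.p 16 2 (SV.p 19 2 (SV.n 20 2 (SV.p 23 6 SV.nil)))))) Tb.e) Tb.e)) (Tb.n (Tb.n (Tb.n (Tb.l (SV.p 14 2 (SV.p 17 2 (SV.p 21 2 SV.nil)))) Tb.e) Tb.e) Tb.e)) (Tb.n (Tb.n (Tb.n (Tb.n (Tb.l (SV.p 10 1 SV.nil)) Tb.e) (Tb.n (Tb.l (SV.p 14 4 (SV.p 17 4 (SV.n 18 4 (SV.p 21 4 (SV.n 22 4 SV.nil)))))) Tb.e)) (Tb.n (Tb.n (Tb.l (SV.p 17 4 (SV.p 21 8 (SV.n 22 4 SV.nil)))) Tb.e) Tb.e)) (Tb.n (Tb.n (Tb.n (Tb.l (SV.p 16 2 (SV.p 20 2 SV.nil)))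 Tb.e) Tb.e) Tb.e)))

noncomputable def r12 : Tb SV := (Tb.n (Tb.n (Tb.n (Tb.n (Tb.n (Tb.l (SV.p 12 1 SV.nil)) Tb.e) Tb.e) (Tb.n (Tb.n (Tb.l (SV.p 16 2 (SV.p 20 2 SV.nil))) Tb.e) Tb.e)) (Tb.n (Tb.n (Tb.n (Tb.l (SV.n 14 2 (SV.n 17 6 (SV.n 18 2 (SV.n 21 10 (SV.p 22 2 SV.nil)))))) Tb.e) Tb.e) (Tb.n (Tb.n (Tb.l (SV.n 14 4 (SV.n 17 4 (SV.p 18 4 (SV.n 21 4 (SV.p 22 4 SV.nil)))))) Tb.e) Tb.e))) (Tb.n (Tb.n (Tb.n (Tb.n (Tb.l (SV.p 13 1 SV.nil)) Tb.e) Tb.e) (Tb.n (Tb.n (Tb.l (SV.p 14 2 (SV.p 17 2 (SV.p 21 2 SV.nil)))) Tb.e) Tb.e)) (Tb.n (Tb.n (Tb.n (Tb.l (SV.n 15 4 (SV.n 19 8 (SV.p 20 4 (SV.n 23 12 SV.nil))))) Tb.e) Tb.e) (Tb.n (Tb.n (Tb.l (SV.n 15 4 (SV.p 16 4 (SV.n 19 4 (SV.p 20 4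 (SV.n 23 4 SV.nil)))))) Tb.e) Tb.e))))

noncomputable def r13 : Tb SV := (Tb.n (Tb.n (Tb.n (Tb.n (Tb.n (Tb.l (SV.p 13 1 SV.nil)) Tb.e) (Tb.n (Tb.l (SV.n 14 4 (SV.n 17 4 (SV.p 18 4 (SV.n 21 4 (SV.p 22 4 SV.nil)))))) Tb.e)) (Tb.n (Tb.n (Tb.l (SV.n 17 4 (SV.n 18 4 (SV.n 21 8 SV.nil)))) Tb.e) Tb.e)) (Tb.n (Tb.n (Tb.n (Tb.l (SV.n 15 2 (SV.p 16 4 (SV.n 19 2 (SV.p 20 4 (SV.n 23 2 SV.nil)))))) Tb.e) Tb.e) Tb.e)) (Tb.n (Tb.n (Tb.n (Tb.n (Tb.l (SV.p 12 1 SV.nil)) Tb.e) (Tb.n (Tb.l (SV.n 15 4 (SV.p 16 4 (SV.n 19 4 (SV.p 20 4 (SV.n 23 4 SV.nil)))))) Tb.e)) (Tb.n (Tb.n (Tb.l (SV.n 15 2 (SV.n 16 2 (SV.n 19 6 (SV.p 20 2 (SV.n 23 10 SV.nil)))))) Tb.e) Tb.e)) (Tb.n (Tb.n (Tb.n (Tb.l (SV.p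 18 2 (SV.p 22 2 SV.nil))) Tb.e) Tb.e) Tb.e)))

noncomputable def r14 : Tb SV := (Tb.n (Tb.n (Tb.n (Tb.n (Tb.n (Tb.l (SV.p 14 1 SV.nil)) Tb.e) Tb.e) Tb.e) Tb.e) (Tb.n (Tb.n (Tb.n (Tb.n (Tb.l (SV.p 16 1 (SV.p 23 1 SV.nil))) Tb.e) Tb.e) Tb.e) Tb.e))

noncomputable def r15 : Tb SV := (Tb.n (Tb.n (Tb.n (Tb.n (Tb.n (Tb.l (SV.p 15 1 SV.nil)) Tb.e) Tb.e) Tb.e) Tb.e) (Tb.n (Tb.n (Tb.n (Tb.n (Tb.l (SV.p 14 1 (SV.n 18 1 (SV.n 22 1 SV.nil)))) Tb.e) Tb.e) Tb.e) Tb.e))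

noncomputable def r16 : Tb SV := (Tb.n (Tb.n (Tb.n (Tb.n (Tb.n (Tb.l (SV.p 16 1 SV.nil)) Tb.e) Tb.e) Tb.e) Tb.e) (Tb.n (Tb.n (Tb.n (Tb.n (Tb.l (SV.n 22 1 SV.nil)) Tb.e) Tb.e) Tb.e) Tb.e))

noncomputable def r17 : Tb SV := (Tb.n (Tb.n (Tb.n (Tb.n (Tb.n (Tb.l (SV.p 17 1 SV.nil)) Tb.e) Tb.e) Tb.e) Tb.e) (Tb.n (Tb.n (Tb.n (Tb.n (Tb.l (SV.p 15 1 (SV.n 16 1 (SV.p 20 1 (SV.n 23 3 SV.nil))))) Tb.e) Tb.e) Tb.e) Tb.e))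

noncomputable def r18 : Tb SV := (Tb.n (Tb.n (Tb.n (Tb.n (Tb.n (Tb.l (SV.p 18 1 SV.nil)) Tb.e) Tb.e) Tb.e) Tb.e) (Tb.n (Tb.n (Tb.n (Tb.n (Tb.l (SV.p 16 1 SV.nil)) Tb.e) Tb.e) Tb.e) Tb.e))

noncomputable def r19 : Tb SV := (Tb.n (Tb.n (Tb.n (Tb.n (Tb.n (Tb.l (SV.p 19 1 SV.nil)) Tb.e) Tb.e) Tb.e) Tb.e) (Tb.n (Tb.n (Tb.n (Tb.n (Tb.l (SV.p 17 1 (SV.p 18 1 (SV.p 22 1 SV.nil)))) Tb.e) Tb.e) Tb.e) Tb.e))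

noncomputable def r20 : Tb SV := (Tb.n (Tb.n (Tb.n (Tb.n (Tb.n (Tb.l (SV.p 20 1 SV.nil)) Tb.e) Tb.e) Tb.e) Tb.e) (Tb.n (Tb.n (Tb.n (Tb.n (Tb.l (SV.p 18 1 (SV.p 22 2 SV.nil))) Tb.e) Tb.e) Tb.e) Tb.e))

noncomputable def r21 : Tb SV := (Tb.n (Tb.n (Tb.n (Tb.n (Tb.n (Tb.l (SV.p 21 1 SV.nil)) Tb.e) Tb.e) Tb.e) Tb.e) (Tb.n (Tb.n (Tb.n (Tb.n (Tb.l (SV.p 19 1 (SV.n 20 1 (SV.p 23 3 SV.nil)))) Tb.e) Tb.e) Tb.e) Tb.e))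

noncomputable def r22 : Tb SV := (Tb.n (Tb.n (Tb.n (Tb.n (Tb.n (Tb.l (SV.p 22 1 SV.nil)) Tb.e) Tb.e) Tb.e) Tb.e) (Tb.n (Tb.n (Tb.n (Tb.n (Tb.l (SV.p 20 1 SV.nil)) Tb.e) Tb.e) Tb.e) Tb.e))

noncomputable def r23 : Tb SV := (Tb.n (Tb.n (Tb.n (Tb.n (Tb.n (Tb.l (SV.p 23 1 SV.nil)) Tb.e) Tb.e) Tb.e) Tb.e) (Tb.n (Tb.n (Tb.n (Tb.n (Tb.l (SV.p 21 1 SV.nil)) Tb.e) Tb.e) Tb.e) Tb.e))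

noncomputable def rows : Tb (Tb SV) := (Tb.n (Tb.n (Tb.n (Tb.n (Tb.n (Tb.l r0) (Tb.l r16)) (Tb.n (Tb.l r8) Tb.e)) (Tb.n (Tb.n (Tb.l r4) (Tb.l r20)) (Tb.n (Tb.l r12) Tb.e))) (Tb.n (Tb.n (Tb.n (Tb.l r2) (Tb.l r18)) (Tb.n (Tb.l r10) Tb.e)) (Tb.n (Tb.n (Tb.l r6) (Tb.l r22)) (Tb.n (Tb.l r14) Tb.e)))) (Tb.n (Tb.n (Tb.n (Tb.n (Tb.l r1) (Tb.l r17)) (Tb.n (Tb.l r9) Tb.e)) (Tb.n (Tb.n (Tb.l r5) (Tb.l r21)) (Tb.n (Tb.l r13) Tb.e))) (Tb.n (Tb.n (Tb.n (Tb.l r3) (Tb.l r19)) (Tb.n (Tb.l r11) Tb.e)) (Tb.n (Tb.n (Tb.l r7) (Tb.l r23)) (Tb.n (Tb.l r15) Tb.e)))))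

noncomputable def T (i j : ℕ) : SV := Tb.get SV.nil (Tb.get Tb.e rows i) j

noncomputable def pr (i : ℕ) : ℕ := Nat.mod (Nat.div 6710886 (Nat.pow 2 i)) 2

noncomputable def tb : Tbl := ⟨24, pr, T⟩

theorem chk : Chk tb := by
  constructor <;> decide +kernel

end Pool.Agent.Helper817.Chain.D5
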