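import Pool.Agent.Helper817.Chain.N6
set_option autoImplicit false

/-! The Grassmann envelopes of the models. -/

namespace Pool.Agent.Helper817.Chain.En
open Pool.Agent.Helper805.Nuc.Ext Pool.Agent.Helper805.Nuc.Tens Pool.Agent.Helper805.Chain
  Pool.Agent.Helper805.Chain.Var Pool.Agent.Helper805.Mod
  Pool.Agent.Helper805.Mod.Sparse Pool.Agent.Helper817.Chain.Tab Pool.Agent.Helper817.Chain.Rg
  Pool.Agent.Helper817.Chain.Xi Pool.Agent.Helper817.Chain.It Pool.Agent.Helper817.Chain.G5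

section
variable (K : Type) [Field K] (n : ℕ)

/-- the parity parts of the exterior algebra -/
noncomputable def part (b : ℕ) : Submodule K (LK K n) :=
  Submodule.span K {u | ∃ l : List (Fin n), l.length % 2 = b ∧ u = E K n l}

lemma E_mem (l : List (Fin n)) : E K n l ∈ part K n (l.length % 2) :=
  Submodule.subset_span ⟨l, rfl, rfl⟩

lemma part_mul {a b : ℕ} {u v : LK K n} (hu : u ∈ part K n a) (hv : v ∈ part K n b) :
    u * v ∈ part K n ((a + b) % 2) := by
  induction hu using Submodule.span_induction with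
  | mem u hu =>
    obtain ⟨l, hl, rfl⟩ := hu
    induction hv using Submodule.span_induction with
    | mem v hv =>
      obtain ⟨l', hl', rfl⟩ := hv
      have h : E K n l * E K n l' = E K n (l ++ l') := (E_append K n l l').symm
      rw [h]
      have h2 := E_mem K n (l ++ l')
      have h3 : (l ++ l').length % 2 = (a + b) % 2 := by
        rw [List.length_append]; omega
      rwa [h3] at h2
    | zero => rw [mul_zero]; exact Submodule.zero_mem _
    | add x y _ _ hx hy => rw [mul_add]; exact Submodule.add_mem _ hx hy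
    | smul r x _ hx => rw [mul_smul_comm]; exact Submodule.smul_mem _ _ hx
  | zero => rw [zero_mul]; exact Submodule.zero_mem _
  | add x y _ _ hx hy => rw [add_mul]; exact Submodule.add_mem _ hx hy
  | smul r x _ hx => rw [smul_mul_assoc]; exact Submodule.smul_mem _ _ hx

lemma part_swap {a b : ℕ} {u v : LK K n} (ha : a < 2) (hb : b < 2) (hu : u ∈ part K n a) (hv : v ∈ part K n b) :
    u * v = (if a * b = 1 then (-1 : K) else 1) • (v * u) := by
  induction hu using Submodule.span_induction with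
  | mem u hu =>
    obtain ⟨l, hl, rfl⟩ := hu
    induction hv using Submodule.span_induction with
    | mem v hv =>
      obtain ⟨l', hl', rfl⟩ := hv
      have h := E_swap K n l l'
      rw [h]
      split_ifs with hab
      · have h1 : a = 1 := Nat.eq_one_of_mul_eq_one_right hab
        have h2 : b = 1 := Nat.eq_one_of_mul_eq_one_left hab
        have : Odd (l.length * l'.length) :=
          (Nat.odd_iff.mpr (by omega)).mul (Nat.odd_iff.mpr (by omega))
        rw [this.neg_one_pow, neg_one_smul, neg_one_mul]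
      · have : Even (l.length * l'.length) := by
          rcases Nat.lt_or_ge 0 a with h1 | h1
          · rcases Nat.lt_or_ge 0 b with h2 | h2
            · have h3 : a = 1 := by omega
              have h4 : b = 1 := by omega
              rw [h3, h4] at hab
              exact absurd rfl hab
            · exact (Nat.even_iff.mpr (by omega)).mul_left _
          · exact (Nat.even_iff.mpr (by omega)).mul_right _
        rw [this.neg_one_pow, one_smul, one_mul]
    | zero => rw [mul_zero, zero_mul, smul_zero]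
    | add x y _ _ hx hy => rw [mul_add, add_mul, smul_add, hx, hy]
    | smul r x _ hx => rw [mul_smul_comm, smul_mul_assoc, hx, smul_comm]
  | zero => rw [mul_zero, zero_mul, smul_zero]
  | add x y _ _ hx hy => rw [mul_add, add_mul, smul_add, hx, hy]
  | smul r x _ hx => rw [mul_smul_comm, smul_mul_assoc, hx, smul_comm]

noncomputable def G0 : Super.SuperRing K (LK K n) where
  part := part K n
  mul_mem := part_mul K n
  swap := part_swap K n

lemma gN_mem (j : ℕ) : gN K n j ∈ part K n 1 := by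
  unfold gN
  split_ifs with h
  · refine Submodule.subset_span ⟨[⟨j, h⟩], rfl, ?_⟩
    rw [E_cons, E_nil, mul_one]
  · exact Submodule.zero_mem _

lemma one_mem : (1 : LK K n) ∈ part K n 0 := Submodule.subset_span ⟨[], rfl, (E_nil K n).symm⟩

variable (t : Tbl) (H : Chk t)

/-- the Grassmann envelope as a subalgebra -/
noncomputable def BS : NonUnitalSubalgebra K (SR K (LK K n) t) where
  carrier := {v | v ∈ Super.env (G0 K n) (D t)}
  add_mem' := fun ha hb => (Super.env (G0 K n) (D t)).add_mem ha hb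
  zero_mem' := (Super.env (G0 K n) (D t)).zero_mem
  mul_mem' := fun ha hb => Super.rmul_mem (G0 K n) ((good H).toK K) ha hb
  smul_mem' := fun r _ ha => (Super.env (G0 K n) (D t)).smul_mem r ha

lemma BS_alt (h2 : (2 : K) ≠ 0) : IsAlt (BS K n t H) where
  left := by
    intro x y
    apply Subtype.ext
    funext l
    exact Super.left_alt (G0 K n) h2 ((good H).toK K) (x.2) l
  right := by
    intro x y
    apply Subtype.ext
    funext l
    exact Super.right_alt (G0 K n) h2 ((good H).toK K) (x.2) l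

lemma sgl_mem (k : ℕ) (u : LK K n) (hu : u ∈ part K n (t.par k)) : sgl K t k u ∈ BS K n t H := by
  intro i
  show (if (i : ℕ) = k then u else 0) ∈ part K n (t.par i)
  split_ifs with h
  · rw [h]; exact hu
  · exact Submodule.zero_mem _

end

section
variable {Φ : Type} [CommRing Φ] {K : Type} [Field K] (f : Φ →+* K) {n : ℕ} {t : Tbl} (H : Chk t) (h2 : (2 : K) ≠ 0)
include f h2

/-- nonvanishing in the envelope -/
theorem nonvan_of {N : ℕ} (P : PF N) (y : Fin N → SR K (LK K n) t) (hy : ∀ i, y i ∈ BS K n t H) (i0 i1 : Fin N)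
    (h : P.F (SR K (LK K n) t) y (y i0) (y i1) ≠ 0) : NonVan Φ P := by
  letI : Module Φ (BS K n t H) := Module.compHom (BS K n t H) f
  haveI : IsScalarTower Φ (BS K n t H) (BS K n t H) := ⟨fun r a b => smul_mul_assoc (f r) a b⟩
  haveI : SMulCommClass Φ (BS K n t H) (BS K n t H) := ⟨fun r a b => (mul_smul_comm (f r) a b).symm⟩
  apply NonVan.of_slots
  refine ⟨BS K n t H, inferInstance, inferInstance, inferInstance, inferInstance, BS_alt K n t H h2,
    fun i => ⟨y i, hy i⟩, i0, i1, ?_⟩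
  intro h0
  apply h
  let g : BS K n t H →ₙ+* SR K (LK K n) t :=
    { toFun := fun b => (b : SR K (LK K n) t)
      map_mul' := fun _ _ => rfl
      map_zero' := rfl
      map_add' := fun _ _ => rfl }
  have h1 := P.map (BS K n t H) (SR K (LK K n) t) g (fun i => ⟨y i, hy i⟩) ⟨y i0, hy i0⟩ ⟨y i1, hy i1⟩
  rw [h0, map_zero] at h1
  exact h1.symm

end

/-- a field over `Φ` in which `210` is invertible -/
theorem exists_field (Φ : Type) [CommRing Φ] (h : ¬ IsNilpotent (210 : Φ)) :
    ∃ (K : Type) (_ : Field K) (_ : Φ →+* K), (210 : K) ≠ 0 := by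
  rw [nilpotent_iff_mem_prime] at h
  push Not at h
  obtain ⟨J, hJ, h1⟩ := h
  haveI := hJ
  refine ⟨FractionRing (Φ ⧸ J), inferInstance, (algebraMap (Φ ⧸ J) (FractionRing (Φ ⧸ J))).comp (Ideal.Quotient.mk J), ?_⟩
  intro h2
  apply h1
  rw [← Ideal.Quotient.eq_zero_iff_mem]
  apply IsFractionRing.injective (Φ ⧸ J) (FractionRing (Φ ⧸ J))
  rw [map_zero]
  have h3 := map_ofNat ((algebraMap (Φ ⧸ J) (FractionRing (Φ ⧸ J))).comp (Ideal.Quotient.mk J)) 210
  exact h3.trans h2

/-- the bookkeeping of the table -/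
noncomputable def isOne (i : ℕ) (v : SV) : Bool :=
  SV.rec (motive := fun _ => Bool) false
    (fun k a s _ => and (Nat.beq k i) (and (Nat.beq a 1) (Ev.isNil s))) (fun _ _ _ _ => false) v

theorem isOne_ok {i : ℕ} {v : SV} (h : isOne i v = true) : v = SV.p i 1 SV.nil := by
  cases v with
  | nil => exact absurd h (by show ¬ (false = true); decide)
  | p k a s =>
    have h1 : (and (Nat.beq k i) (and (Nat.beq a 1) (Ev.isNil s))) = true := h
    rw [Bool.and_eq_true, Bool.and_eq_true, Nat.beq_eq, Nat.beq_eq] at h1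
    rw [h1.1, h1.2.1, Ev.isNil_ok h1.2.2]
  | n k a s => exact absurd h (by show ¬ (false = true); decide)

theorem U5 : Un t5 where
  pos := by decide
  un := by
    have h : allB 24 (fun i => isOne i (D5.T i 0)) = true := by decide +kernel
    intro i hi
    exact isOne_ok (allB_ok h i hi)
  sq := by
    have h : isOne 0 (D5.T 1 1) = true := by decide +kernel
    exact isOne_ok h

theorem U6 : Un t6 where
  pos := by decide
  un := by
    have h : allB 26 (fun i => isOne i (D6.T i 0)) = true := by decide +kernel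
    intro i hi
    exact isOne_ok (allB_ok h i hi)
  sq := by
    have h : isOne 0 (D6.T 1 1) = true := by decide +kernel
    exact isOne_ok h

section
variable (K : Type) [Field K]

lemma PR_PE (n q q0 : ℕ) (g : ℕ → LK K n) (hg : ∀ k, g (q + k) = gN K n (q0 + k)) (k : ℕ) :
    PR K n q0 * PE g q k = PR K n (q0 + 2 * k) := by
  induction k with
  | zero => show _ * 1 = _; rw [mul_one]; rfl
  | succ k ih =>
    show PR K n q0 * (PE g q k * (g (q + 2 * k) * g (q + 2 * k + 1))) = PR K n (q0 + 2 * k) * gN K n (q0 + 2 * k) * gN K n (q0 + 2 * k + 1)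
    rw [← mul_assoc, ih, add_assoc q, hg, hg, ← mul_assoc]
    rfl

lemma smul_PR_ne {n : ℕ} (c : ℤ) (hc : (c : K) ≠ 0) : c • PR K n n ≠ 0 := by
  intro h
  have h1 := congrArg (top K n) h
  rw [map_zero, ← Int.cast_smul_eq_zsmul K, map_smul, top_PR, smul_eq_mul, mul_one] at h1
  exact hc h1

end

lemma ne_of_210 {K : Type} [Field K] (h : (210 : K) ≠ 0) :
    (2 : K) ≠ 0 ∧ (3 : K) ≠ 0 ∧ (5 : K) ≠ 0 ∧ (7 : K) ≠ 0 := by
  refine ⟨?_, ?_, ?_, ?_⟩ <;> intro h0 <;> apply h
  · rw [show (210 : K) = 2 * 105 by norm_num, h0, zero_mul]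
  · rw [show (210 : K) = 3 * 70 by norm_num, h0, zero_mul]
  · rw [show (210 : K) = 5 * 42 by norm_num, h0, zero_mul]
  · rw [show (210 : K) = 7 * 30 by norm_num, h0, zero_mul]

theorem nonvan5 {Φ : Type} [CommRing Φ] {K : Type} [Field K] (f : Φ →+* K) (h2 : (2 : K) ≠ 0) (P : PF 5) (d : ℤ)
    (hP : ∀ (R : Type) [NonUnitalNonAssocRing R] (v : Fin 5 → R) (z w : R), P.F R v z w = d • F5 v z w)
    (hd : ((d * 8640 * 6 : ℤ) : K) ≠ 0) (k : ℕ) : NonVan Φ (P.iter (by norm_num) k) := by
  have hy : ∀ j, N5.y K (7 + 2 * k) j ∈ BS K (7 + 2 * k) t5 D5.chk := by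
    intro j
    unfold N5.y
    split_ifs
    · exact add_mem (sgl_mem K _ t5 D5.chk 1 _ (gN_mem K _ _)) (sgl_mem K _ t5 D5.chk 2 _ (gN_mem K _ _))
    · exact add_mem (sgl_mem K _ t5 D5.chk 1 _ (gN_mem K _ _)) (sgl_mem K _ t5 D5.chk 2 _ (gN_mem K _ _))
    · exact sgl_mem K _ t5 D5.chk 1 _ (gN_mem K _ _)
    · exact sgl_mem K _ t5 D5.chk 1 _ (gN_mem K _ _)
  refine nonvan_of f D5.chk h2 (P.iter (by norm_num) k) (fun s => N5.y K (7 + 2 * k) s) (fun s => hy s)
    ⟨0, by omega⟩ ⟨1, by omega⟩ ?_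
  intro h0
  have h1 := congrFun h0 i5
  have h3 := iter_val U5 P (by norm_num) (N5.y K (7 + 2 * k)) (N5.y K (7 + 2 * k) 0) (N5.y K (7 + 2 * k) 1)
    (fun j => gN K (7 + 2 * k) (j + 2)) (fun j hj => N5.y_big K _ j hj) (fun i j => gN_anti K _ _ _) k i5
  have h4 : ((6 : ℤ) ^ k) • (P.F (SR K (LK K (7 + 2 * k)) t5) (fun s : Fin 5 => N5.y K (7 + 2 * k) s)
      (N5.y K (7 + 2 * k) 0) (N5.y K (7 + 2 * k) 1) i5 * PE (fun j => gN K (7 + 2 * k) (j + 2)) 5 k) = 0 :=
    h3.symm.trans h1
  rw [hP] at h4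
  have h5 : ((d • F5 (fun s : Fin 5 => N5.y K (7 + 2 * k) s) (N5.y K (7 + 2 * k) 0) (N5.y K (7 + 2 * k) 1) :
      SR K (LK K (7 + 2 * k)) t5) i5) = d • ((-8640 : ℤ) • PR K (7 + 2 * k) 7) := by
    rw [smul_app, N5.F5_eq]
  rw [h5, smul_smul, smul_mul_assoc, PR_PE K (7 + 2 * k) 5 7 (fun j => gN K (7 + 2 * k) (j + 2))
    (fun k => by show gN K _ (5 + k + 2) = _; congr 1; omega) k, smul_smul] at h4
  refine smul_PR_ne K _ ?_ h4
  have e : (((6 : ℤ) ^ k * (d * -8640) : ℤ) : K) = -((6 : K) ^ k * ((d : K) * 8640)) := by push_cast; ring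
  rw [e, neg_ne_zero]
  have e2 : ((d * 8640 * 6 : ℤ) : K) = ((d : K) * 8640) * 6 := by push_cast; ring
  rw [e2] at hd
  exact mul_ne_zero (pow_ne_zero _ (right_ne_zero_of_mul hd)) (left_ne_zero_of_mul hd)

theorem nonvan6 {Φ : Type} [CommRing Φ] {K : Type} [Field K] (f : Φ →+* K) (h2 : (2 : K) ≠ 0) (P : PF 6) (d : ℤ)
    (hP : ∀ (R : Type) [NonUnitalNonAssocRing R] (v : Fin 6 → R) (z w : R), P.F R v z w = d • F6 v z)
    (hd : ((d * 25920 * 6 : ℤ) : K) ≠ 0) (k : ℕ) : NonVan Φ (P.iter (by norm_num) k) := by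
  have hy : ∀ j, N6.y K (6 + 2 * k) j ∈ BS K (6 + 2 * k) t6 D6.chk := by
    intro j
    unfold N6.y
    split_ifs
    · exact add_mem (sgl_mem K _ t6 D6.chk 1 _ (gN_mem K _ _)) (sgl_mem K _ t6 D6.chk 2 _ (one_mem K _))
    · exact sgl_mem K _ t6 D6.chk 1 _ (gN_mem K _ _)
  refine nonvan_of f D6.chk h2 (P.iter (by norm_num) k) (fun s => N6.y K (6 + 2 * k) s) (fun s => hy s)
    ⟨0, by omega⟩ ⟨1, by omega⟩ ?_
  intro h0
  have h1 := congrFun h0 i6
  have h3 := iter_val U6 P (by norm_num) (N6.y K (6 + 2 * k)) (N6.y K (6 + 2 * k) 0) (N6.y K (6 + 2 * k) 1)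
    (fun j => gN K (6 + 2 * k) j) (fun j hj => N6.y_pos K _ j (by omega)) (fun i j => gN_anti K _ _ _) k i6
  have h4 : ((6 : ℤ) ^ k) • (P.F (SR K (LK K (6 + 2 * k)) t6) (fun s : Fin 6 => N6.y K (6 + 2 * k) s)
      (N6.y K (6 + 2 * k) 0) (N6.y K (6 + 2 * k) 1) i6 * PE (fun j => gN K (6 + 2 * k) j) 6 k) = 0 :=
    h3.symm.trans h1
  rw [hP] at h4
  have h5 : ((d • F6 (fun s : Fin 6 => N6.y K (6 + 2 * k) s) (N6.y K (6 + 2 * k) 0) :
      SR K (LK K (6 + 2 * k)) t6) i6) = d • ((-25920 : ℤ) • PR K (6 + 2 * k) 6) := by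
    rw [smul_app, N6.F6_eq]
  rw [h5, smul_smul, smul_mul_assoc, PR_PE K (6 + 2 * k) 6 6 (fun j => gN K (6 + 2 * k) j) (fun k => rfl) k,
    smul_smul] at h4
  refine smul_PR_ne K _ ?_ h4
  have e : (((6 : ℤ) ^ k * (d * -25920) : ℤ) : K) = -((6 : K) ^ k * ((d : K) * 25920)) := by push_cast; ring
  rw [e, neg_ne_zero]
  have e2 : ((d * 25920 * 6 : ℤ) : K) = ((d : K) * 25920) * 6 := by push_cast; ring
  rw [e2] at hd
  exact mul_ne_zero (pow_ne_zero _ (right_ne_zero_of_mul hd)) (left_ne_zero_of_mul hd)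

end Pool.Agent.Helper817.Chain.En
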