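import Pool.Agent.Helper805.Mod.Sparse
import Pool.Agent.Helper805.Chain.Expr
set_option autoImplicit false

/-! Evaluation of nonassociative expressions on sparse integer combinations of a family closed under products. -/

namespace Pool.Agent.Helper817.Chain.Ev
open Pool.Agent.Helper805.Mod.Sparse Pool.Agent.Helper805.Chain

/-- `a • v` in front of `w` -/
noncomputable def axP (a : ℕ) (v w : SV) : SV :=
  SV.rec (motive := fun _ => SV) w (fun k b _ ih => SV.p k (Nat.mul a b) ih) (fun k b _ ih => SV.n k (Nat.mul a b) ih) v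

/-- `-a • v` in front of `w` -/
noncomputable def axN (a : ℕ) (v w : SV) : SV :=
  SV.rec (motive := fun _ => SV) w (fun k b _ ih => SV.n k (Nat.mul a b) ih) (fun k b _ ih => SV.p k (Nat.mul a b) ih) v

/-- linear substitution -/
noncomputable def bind (f : ℕ → SV) (v : SV) : SV :=
  SV.rec (motive := fun _ => SV) SV.nil (fun k a _ ih => axP a (f k) ih) (fun k a _ ih => axN a (f k) ih) v

/-- the positive entries at `k` -/
noncomputable def sp (k : ℕ) (v : SV) : ℕ :=
  SV.rec (motive := fun _ => ℕ) 0 (fun l a _ ih => cond (Nat.beq l k) (Nat.add a ih) ih) (fun _ _ _ ih => ih) v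

/-- the negative entries at `k` -/
noncomputable def sn (k : ℕ) (v : SV) : ℕ :=
  SV.rec (motive := fun _ => ℕ) 0 (fun _ _ _ ih => ih) (fun l a _ ih => cond (Nat.beq l k) (Nat.add a ih) ih) v

/-- the entries away from `k` -/
noncomputable def rm (k : ℕ) (v : SV) : SV :=
  SV.rec (motive := fun _ => SV) SV.nil (fun l a _ ih => cond (Nat.beq l k) ih (SV.p l a ih))
    (fun l a _ ih => cond (Nat.beq l k) ih (SV.n l a ih)) v

/-- the entry `P - Q` at `k` in front of `w` -/
noncomputable def put (k P Q : ℕ) (w : SV) : SV :=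
  cond (Nat.ble Q P) (cond (Nat.beq P Q) w (SV.p k (Nat.sub P Q) w)) (SV.n k (Nat.sub Q P) w)

/-- combine equal keys -/
noncomputable def nrm (n : ℕ) : SV → SV :=
  Nat.rec (motive := fun _ => SV → SV) (fun v => v)
    (fun _ f v => SV.rec (motive := fun _ => SV) SV.nil
      (fun k a t _ => put k (Nat.add a (sp k t)) (sn k t) (f (rm k t)))
      (fun k a t _ => put k (sp k t) (Nat.add a (sn k t)) (f (rm k t))) v) n

section
variable {R : Type} [NonUnitalNonAssocRing R]

/-- the value of a sparse vector -/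
def ev (E : ℕ → R) : SV → R
  | .nil => 0
  | .p k a t => (a : ℤ) • E k + ev E t
  | .n k a t => (-(a : ℤ)) • E k + ev E t

variable (E : ℕ → R)

theorem ev_axP (a : ℕ) (v w : SV) : ev E (axP a v w) = (a : ℤ) • ev E v + ev E w := by
  induction v with
  | nil => show ev E w = (a : ℤ) • (0 : R) + ev E w; rw [smul_zero, zero_add]
  | p k b t ih =>
    show ((Nat.mul a b : ℕ) : ℤ) • E k + ev E (axP a t w) = (a : ℤ) • ((b : ℤ) • E k + ev E t) + ev E w
    have : ((Nat.mul a b : ℕ) : ℤ) = (a : ℤ) * b := by show ((a * b : ℕ) : ℤ) = _; push_cast; rfl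
    rw [ih, this, smul_add, smul_smul, add_assoc]
  | n k b t ih =>
    show (-((Nat.mul a b : ℕ) : ℤ)) • E k + ev E (axP a t w) = (a : ℤ) • ((-(b : ℤ)) • E k + ev E t) + ev E w
    have : (-((Nat.mul a b : ℕ) : ℤ)) = (a : ℤ) * (-b) := by show -((a * b : ℕ) : ℤ) = _; push_cast; ring
    rw [ih, this, smul_add, smul_smul, add_assoc]

theorem ev_axN (a : ℕ) (v w : SV) : ev E (axN a v w) = (-(a : ℤ)) • ev E v + ev E w := by
  induction v with
  | nil => show ev E w = (-(a : ℤ)) • (0 : R) + ev E w; rw [smul_zero, zero_add]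
  | p k b t ih =>
    show (-((Nat.mul a b : ℕ) : ℤ)) • E k + ev E (axN a t w) = (-(a : ℤ)) • ((b : ℤ) • E k + ev E t) + ev E w
    have : (-((Nat.mul a b : ℕ) : ℤ)) = (-(a : ℤ)) * b := by show -((a * b : ℕ) : ℤ) = _; push_cast; ring
    rw [ih, this, smul_add, smul_smul, add_assoc]
  | n k b t ih =>
    show ((Nat.mul a b : ℕ) : ℤ) • E k + ev E (axN a t w) = (-(a : ℤ)) • ((-(b : ℤ)) • E k + ev E t) + ev E w
    have : ((Nat.mul a b : ℕ) : ℤ) = (-(a : ℤ)) * (-b) := by show ((a * b : ℕ) : ℤ) = _; push_cast; ring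
    rw [ih, this, smul_add, smul_smul, add_assoc]

theorem ev_bind (f : ℕ → SV) (v : SV) : ev E (bind f v) = ev (fun k => ev E (f k)) v := by
  induction v with
  | nil => rfl
  | p k a t ih =>
    show ev E (axP a (f k) (bind f t)) = (a : ℤ) • ev E (f k) + ev (fun k => ev E (f k)) t
    rw [ev_axP, ih]
  | n k a t ih =>
    show ev E (axN a (f k) (bind f t)) = (-(a : ℤ)) • ev E (f k) + ev (fun k => ev E (f k)) t
    rw [ev_axN, ih]

theorem mul_ev (x : R) (v : SV) : x * ev E v = ev (fun k => x * E k) v := by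
  induction v with
  | nil => exact mul_zero x
  | p k a t ih =>
    show x * ((a : ℤ) • E k + ev E t) = (a : ℤ) • (x * E k) + ev (fun k => x * E k) t
    rw [mul_add, mul_smul_comm, ih]
  | n k a t ih =>
    show x * ((-(a : ℤ)) • E k + ev E t) = (-(a : ℤ)) • (x * E k) + ev (fun k => x * E k) t
    rw [mul_add, mul_smul_comm, ih]

theorem ev_mul' (x : R) (v : SV) : ev E v * x = ev (fun k => E k * x) v := by
  induction v with
  | nil => exact zero_mul x
  | p k a t ih =>
    show ((a : ℤ) • E k + ev E t) * x = (a : ℤ) • (E k * x) + ev (fun k => E k * x) t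
    rw [add_mul, smul_mul_assoc, ih]
  | n k a t ih =>
    show ((-(a : ℤ)) • E k + ev E t) * x = (-(a : ℤ)) • (E k * x) + ev (fun k => E k * x) t
    rw [add_mul, smul_mul_assoc, ih]

theorem ev_rm (k : ℕ) (v : SV) : ev E v = ((sp k v : ℤ) - (sn k v : ℤ)) • E k + ev E (rm k v) := by
  induction v with
  | nil => show (0 : R) = ((0 : ℕ) - (0 : ℕ) : ℤ) • E k + 0; simp
  | p l a t ih =>
    have h1 : sp k (SV.p l a t) = cond (Nat.beq l k) (a + sp k t) (sp k t) := rfl
    have h2 : sn k (SV.p l a t) = sn k t := rfl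
    have h3 : rm k (SV.p l a t) = cond (Nat.beq l k) (rm k t) (SV.p l a (rm k t)) := rfl
    rw [h1, h2, h3]
    cases hb : Nat.beq l k
    · rw [cond_false, cond_false]
      show (a : ℤ) • E l + ev E t = _ • E k + ((a : ℤ) • E l + ev E (rm k t))
      rw [ih]; abel
    · have hl := Nat.eq_of_beq_eq_true hb
      rw [cond_true, cond_true]
      show (a : ℤ) • E l + ev E t = _ • E k + ev E (rm k t)
      rw [ih, hl]
      push_cast
      rw [add_sub_assoc, add_smul, add_assoc]
  | n l a t ih =>
    have h1 : sp k (SV.n l a t) = sp k t := rfl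
    have h2 : sn k (SV.n l a t) = cond (Nat.beq l k) (a + sn k t) (sn k t) := rfl
    have h3 : rm k (SV.n l a t) = cond (Nat.beq l k) (rm k t) (SV.n l a (rm k t)) := rfl
    rw [h1, h2, h3]
    cases hb : Nat.beq l k
    · rw [cond_false, cond_false]
      show (-(a : ℤ)) • E l + ev E t = _ • E k + ((-(a : ℤ)) • E l + ev E (rm k t))
      rw [ih]; abel
    · have hl := Nat.eq_of_beq_eq_true hb
      rw [cond_true, cond_true]
      show (-(a : ℤ)) • E l + ev E t = _ • E k + ev E (rm k t)
      rw [ih, hl]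
      push_cast
      rw [← add_assoc, ← add_smul]
      congr 2
      ring

theorem ev_put (k P Q : ℕ) (w : SV) : ev E (put k P Q w) = ((P : ℤ) - (Q : ℤ)) • E k + ev E w := by
  unfold put
  cases h : Nat.ble Q P
  · have h2 : ¬ Q ≤ P := fun h3 => by rw [← Nat.ble_eq] at h3; rw [h3] at h; exact absurd h (by decide)
    rw [cond_false]
    show (-((Nat.sub Q P : ℕ) : ℤ)) • E k + ev E w = _
    have h4 : (-((Nat.sub Q P : ℕ) : ℤ)) = (P : ℤ) - Q := by
      show -((Q - P : ℕ) : ℤ) = _
      rw [Nat.cast_sub (by omega)]; ring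
    rw [h4]
  · have h2 : Q ≤ P := by rw [← Nat.ble_eq]; exact h
    rw [cond_true]
    cases h3 : Nat.beq P Q
    · rw [cond_false]
      show ((Nat.sub P Q : ℕ) : ℤ) • E k + ev E w = _
      have h4 : ((Nat.sub P Q : ℕ) : ℤ) = (P : ℤ) - Q := by
        show ((P - Q : ℕ) : ℤ) = _
        rw [Nat.cast_sub h2]
      rw [h4]
    · have h4 := Nat.eq_of_beq_eq_true h3
      rw [cond_true, h4, sub_self, zero_smul, zero_add]

theorem ev_nrm (n : ℕ) : ∀ v : SV, ev E (nrm n v) = ev E v := by
  induction n with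
  | zero => intro v; rfl
  | succ n ih =>
    intro v
    cases v with
    | nil => rfl
    | p k a t =>
      have h : nrm (n + 1) (SV.p k a t) = put k (a + sp k t) (sn k t) (nrm n (rm k t)) := rfl
      rw [h, ev_put, ih]
      show _ = (a : ℤ) • E k + ev E t
      rw [ev_rm E k t]
      push_cast
      rw [add_sub_assoc, add_smul, add_assoc]
    | n k a t =>
      have h : nrm (n + 1) (SV.n k a t) = put k (sp k t) (a + sn k t) (nrm n (rm k t)) := rfl
      rw [h, ev_put, ih]
      show _ = (-(a : ℤ)) • E k + ev E t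
      rw [ev_rm E k t]
      push_cast
      rw [← add_assoc, ← add_smul]
      congr 2
      ring

/-- the product of two sparse vectors -/
noncomputable def mulX (Tx : ℕ → ℕ → SV) (v w : SV) : SV := nrm 4000 (bind (fun i => bind (fun j => Tx i j) w) v)

theorem ev_mul {Tx : ℕ → ℕ → SV} (h : ∀ i j, E i * E j = ev E (Tx i j)) (v w : SV) :
    ev E v * ev E w = ev E (mulX Tx v w) := by
  unfold mulX
  rw [ev_nrm, ev_bind, ev_mul']
  congr 1
  funext k
  rw [mul_ev, ev_bind]
  congr 1
  funext l
  exact h k l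

/-- integer multiples -/
noncomputable def smX (c : ℤ) (v : SV) : SV :=
  Int.rec (motive := fun _ => SV) (fun a => axP a v SV.nil) (fun a => axN (Nat.succ a) v SV.nil) c

theorem ev_smX (c : ℤ) (v : SV) : ev E (smX c v) = c • ev E v := by
  cases c with
  | ofNat a =>
    show ev E (axP a v SV.nil) = _
    rw [ev_axP]; show _ + (0 : R) = _; rw [add_zero]; rfl
  | negSucc a =>
    show ev E (axN (Nat.succ a) v SV.nil) = _
    rw [ev_axN]; show _ + (0 : R) = _; rw [add_zero]; rfl

/-- evaluation of an expression -/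
noncomputable def evx (Tx : ℕ → ℕ → SV) (x z w : SV) (t : Ex) : SV :=
  Ex.rec (motive := fun _ => SV) x z w (fun _ _ a b => mulX Tx a b) (fun _ _ a b => nrm 4000 (axP 1 a b))
    (fun c _ a => smX c a) t

theorem val_ev {Tx : ℕ → ℕ → SV} (h : ∀ i j, E i * E j = ev E (Tx i j)) (x z w : SV) (t : Ex) :
    t.val (ev E x) (ev E z) (ev E w) = ev E (evx Tx x z w t) := by
  induction t with
  | x => rfl
  | z => rfl
  | w => rfl
  | mu a b iha ihb =>
    show a.val _ _ _ * b.val _ _ _ = ev E (mulX Tx (evx Tx x z w a) (evx Tx x z w b))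
    rw [iha, ihb, ev_mul E h]
  | ad a b iha ihb =>
    show a.val _ _ _ + b.val _ _ _ = ev E (nrm 4000 (axP 1 (evx Tx x z w a) (evx Tx x z w b)))
    rw [iha, ihb, ev_nrm, ev_axP, Nat.cast_one, one_smul]
  | sm c a iha =>
    show c • a.val _ _ _ = ev E (smX c (evx Tx x z w a))
    rw [iha, ev_smX]

/-- is it the empty vector? -/
noncomputable def isNil (v : SV) : Bool :=
  SV.rec (motive := fun _ => Bool) true (fun _ _ _ _ => false) (fun _ _ _ _ => false) v

theorem isNil_ok {v : SV} (h : isNil v = true) : v = SV.nil := by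
  cases v with
  | nil => rfl
  | p k a t => exact absurd h (by show ¬ (false = true); decide)
  | n k a t => exact absurd h (by show ¬ (false = true); decide)

/-- equal values -/
noncomputable def eqv (v w : SV) : Bool := isNil (nrm 4000 (axN 1 w v))

theorem eqv_ok {v w : SV} (h : eqv v w = true) : ev E v = ev E w := by
  have h1 := isNil_ok h
  have h2 := ev_nrm E 4000 (axN 1 w v)
  rw [h1, ev_axN] at h2
  have h3 : (0 : R) = (-((1 : ℕ) : ℤ)) • ev E w + ev E v := h2
  rw [Nat.cast_one, neg_one_zsmul] at h3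
  exact (neg_add_eq_zero.mp h3.symm).symm

end

end Pool.Agent.Helper817.Chain.Ev
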