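import Pool.Agent.Helper817.Chain.En
import Pool.Agent.Helper805.Chain.Certs
set_option autoImplicit false

/-! The assembly over a ring in which `210` is not nilpotent. -/

namespace Pool.Agent.Helper817.Chain.Fin
open Pool.Agent.Helper805.Chain Pool.Agent.Helper805.Chain.Var Pool.Agent.Helper817.Chain.En

lemma cast_ne {K : Type} [Field K] (h : (210 : K) ≠ 0) (a b c e : ℕ) (N : ℤ) (hN : N = 2 ^ a * 3 ^ b * 5 ^ c * 7 ^ e) :
    (N : K) ≠ 0 := by
  obtain ⟨h2, h3, h5, h7⟩ := ne_of_210 h
  rw [hN]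
  push_cast
  exact mul_ne_zero (mul_ne_zero (mul_ne_zero (pow_ne_zero _ h2) (pow_ne_zero _ h3)) (pow_ne_zero _ h5))
    (pow_ne_zero _ h7)

/-- For every commutative ring `Φ` in which `210` is not nilpotent and every `m ≥ 4`, the variety `Alt_m` of alternative
`Φ`-algebras generated by the free alternative algebra on `m` generators is strictly contained in `Alt_{m+1}`. -/
theorem strict_of_not_nilpotent (Φ : Type) [CommRing Φ] (h : ¬ IsNilpotent (210 : Φ)) (m : ℕ) (hm : 4 ≤ m) :
    Strict Φ m := by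
  obtain ⟨K, _, f, hK⟩ := exists_field Φ h
  have h2 := (ne_of_210 hK).1
  refine strict_all' PF_five PF_six ?_ ?_ m hm
  · intro k
    refine nonvan5 f h2 PF_five (6772211712 * 381024) (fun R _ v z w => PF_five_F R v z w) ?_ k
    exact cast_ne hK (14 + 5 + 6 + 1) (10 + 5 + 3 + 1) 1 (1 + 2) _ (by norm_num)
  · intro k
    refine nonvan6 f h2 PF_six (2016 * 1741824) (fun R _ v z w => PF_six_F R v z w) ?_ k
    exact cast_ne hK (5 + 10 + 6 + 1) (2 + 5 + 4 + 1) 1 (1 + 1) _ (by norm_num)

end Pool.Agent.Helper817.Chain.Fin
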