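import Pool.Agent.Helper817.Chain.Mo
set_option autoImplicit false

/-! The values of `P5` and `P6` over an arbitrary coefficient algebra. -/

namespace Pool.Agent.Helper817.Chain.G5
open Pool.Agent.Helper805.Chain
  Pool.Agent.Helper805.Mod Pool.Agent.Helper805.Mod.Sparse Pool.Agent.Helper817.Chain.Tab Pool.Agent.Helper817.Chain.Rg
  Pool.Agent.Helper817.Chain.Mo Pool.Agent.Helper817.Chain.Ev

section
variable {K : Type} [Field K] {C : Type} [Ring C] [Algebra K C]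

lemma add_app {t : Tbl} (f g : SR K C t) (i : Fin (D t).N) : (f + g) i = f i + g i := rfl
lemma smul_app {t : Tbl} (c : ℤ) (f : SR K C t) (i : Fin (D t).N) : (c • f) i = c • f i := rfl

/-- the tables -/
noncomputable abbrev t5 : Tbl := D5.tb
noncomputable abbrev t6 : Tbl := D6.tb

/-- the coordinates we look at -/
def i5 : Fin (D t5).N := ⟨14, by decide⟩
def i6 : Fin (D t6).N := ⟨14, by decide⟩

section five
variable {h a b c : C}

lemma m5_of (α : ℕ) (hα : V5.vd α = true) (i j k l : ℕ) (hi : α % 16 = i) (hj : α / 16 % 16 = j)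
    (hk : α / 256 % 16 = k) (hl : α / 4096 = l) : m5 h a b c α = h ^ i * (a ^ j * (b ^ k * c ^ l)) := by
  unfold m5
  rw [if_pos hα, hi, hj, hk, hl]

lemma m5_h : m5 h a b c 1 = h := by
  rw [m5_of 1 (by decide +kernel) 1 0 0 0 rfl rfl rfl rfl]; simp
lemma m5_a : m5 h a b c 16 = a := by
  rw [m5_of 16 (by decide +kernel) 0 1 0 0 rfl rfl rfl rfl]; simp
lemma m5_b : m5 h a b c 256 = b := by
  rw [m5_of 256 (by decide +kernel) 0 0 1 0 rfl rfl rfl rfl]; simp
lemma m5_c : m5 h a b c 4096 = c := by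
  rw [m5_of 4096 (by decide +kernel) 0 0 0 1 rfl rfl rfl rfl]; simp
lemma m5_t : m5 h a b c 8197 = h ^ 5 * c ^ 2 := by
  rw [m5_of 8197 (by decide +kernel) 5 0 0 2 rfl rfl rfl rfl]; simp

variable (hha : Commute h a) (hhb : Commute h b) (hhc : Commute h c) (hab : Commute a b)
  (hac : Commute a c) (hbc : Commute b c) (h6 : ∀ k, 5 < k → h ^ k = 0) (a3 : ∀ k, 2 < k → a ^ k = 0)
  (b3 : ∀ k, 2 < k → b ^ k = 0) (c3 : ∀ k, 2 < k → c ^ k = 0)
include hha hhb hhc hab hac hbc h6 a3 b3 c3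

theorem P5_eq : Ex.P5.val (sgl K t5 1 h + sgl K t5 2 a) (sgl K t5 1 b + sgl K t5 2 c) 0 i5 =
    (-36 : ℤ) • (h ^ 5 * c ^ 2) := by
  let M : Mon C := mon5 hha hhb hhc hab hac hbc h6 a3 b3 c3
  have eX : ev (EE K t5 M) V5.X = sgl K t5 1 h + sgl K t5 2 a := by
    show ((1 : ℕ) : ℤ) • EE K t5 M (1 + 64 * 1) + (((1 : ℕ) : ℤ) • EE K t5 M (2 + 64 * 16) + 0) = _
    rw [EE_key _ (by decide) (by decide), EE_key _ (by decide) (by decide), show M.mm 1 = h from m5_h,
      show M.mm 16 = a from m5_a, Nat.cast_one, one_smul, one_smul, add_zero]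
  have eZ : ev (EE K t5 M) V5.Z = sgl K t5 1 b + sgl K t5 2 c := by
    show ((1 : ℕ) : ℤ) • EE K t5 M (1 + 64 * 256) + (((1 : ℕ) : ℤ) • EE K t5 M (2 + 64 * 4096) + 0) = _
    rw [EE_key _ (by decide) (by decide), EE_key _ (by decide) (by decide), show M.mm 256 = b from m5_b,
      show M.mm 4096 = c from m5_c, Nat.cast_one, one_smul, one_smul, add_zero]
  have eW : ev (EE K t5 M) V5.W i5 = (-36 : ℤ) • (h ^ 5 * c ^ 2) := by
    have e : ev (EE K t5 M) V5.W = (-((36 : ℕ) : ℤ)) • EE K t5 M (14 + 64 * 8197) +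
      ((-((36 : ℕ) : ℤ)) • EE K t5 M (17 + 64 * 8197) + (((36 : ℕ) : ℤ) • EE K t5 M (18 + 64 * 8197) +
      ((-((36 : ℕ) : ℤ)) • EE K t5 M (21 + 64 * 8197) + (((36 : ℕ) : ℤ) • EE K t5 M (22 + 64 * 8197) + 0)))) := rfl
    rw [e, EE_key _ (by decide) (by decide), EE_key _ (by decide) (by decide), EE_key _ (by decide) (by decide),
      EE_key _ (by decide) (by decide), EE_key _ (by decide) (by decide), show M.mm 8197 = h ^ 5 * c ^ 2 from m5_t]
    simp only [add_app, smul_app, sgl_apply]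
    have f1 : ((i5 : Fin (D t5).N) : ℕ) = 14 := rfl
    rw [f1, if_pos rfl, if_neg (by decide), if_neg (by decide), if_neg (by decide), if_neg (by decide)]
    simp only [smul_zero, zero_add]
    show (-((36 : ℕ) : ℤ)) • (h ^ 5 * c ^ 2) + (0 : C) = _
    rw [add_zero]
    rfl
  rw [← eX, ← eZ, ← eW]
  have h1 := val_ev (EE K t5 M) (EE_mul M D5.chk (by decide)) V5.X V5.Z SV.nil Ex.P5
  have h2 := eqv_ok (EE K t5 M) V5.val
  have h3 := h1.trans h2
  exact congrFun h3 i5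

end five

section six
variable {h a b : C}

lemma m6_of (α : ℕ) (hα : V6.vd α = true) (i j k : ℕ) (hi : α % 16 = i) (hj : α / 16 % 16 = j)
    (hk : α / 256 = k) : m6 h a b α = h ^ i * (a ^ j * b ^ k) := by
  unfold m6
  rw [if_pos hα, hi, hj, hk]

lemma m6_h : m6 h a b 1 = h := by
  rw [m6_of 1 (by decide +kernel) 1 0 0 rfl rfl rfl]; simp
lemma m6_a : m6 h a b 16 = a := by
  rw [m6_of 16 (by decide +kernel) 0 1 0 rfl rfl rfl]; simp
lemma m6_b : m6 h a b 256 = b := by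
  rw [m6_of 256 (by decide +kernel) 0 0 1 rfl rfl rfl]; simp
lemma m6_1 : m6 h a b 0 = 1 := by
  rw [m6_of 0 (by decide +kernel) 0 0 0 rfl rfl rfl]; simp
lemma m6_t : m6 h a b 6 = h ^ 6 := by
  rw [m6_of 6 (by decide +kernel) 6 0 0 rfl rfl rfl]; simp

variable (hha : a * h = -(h * a)) (hhb : b * h = -(h * b)) (hab : Commute a b)
  (h7 : ∀ k, 6 < k → h ^ k = 0) (a2 : ∀ k, 1 < k → a ^ k = 0) (b2 : ∀ k, 1 < k → b ^ k = 0)
include hha hhb hab h7 a2 b2

theorem P6_eq : Ex.P6.val (sgl K t6 1 h + sgl K t6 2 a) (sgl K t6 1 b + sgl K t6 2 1) 0 i6 =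
    (-36 : ℤ) • (h ^ 6) := by
  let M : Mon C := mon6 hha hhb hab h7 a2 b2
  have eX : ev (EE K t6 M) V6.X = sgl K t6 1 h + sgl K t6 2 a := by
    show ((1 : ℕ) : ℤ) • EE K t6 M (1 + 64 * 1) + (((1 : ℕ) : ℤ) • EE K t6 M (2 + 64 * 16) + 0) = _
    rw [EE_key _ (by decide) (by decide), EE_key _ (by decide) (by decide), show M.mm 1 = h from m6_h,
      show M.mm 16 = a from m6_a, Nat.cast_one, one_smul, one_smul, add_zero]
  have eZ : ev (EE K t6 M) V6.Z = sgl K t6 1 b + sgl K t6 2 1 := by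
    show ((1 : ℕ) : ℤ) • EE K t6 M (1 + 64 * 256) + (((1 : ℕ) : ℤ) • EE K t6 M (2 + 64 * 0) + 0) = _
    rw [EE_key _ (by decide) (by decide), EE_key _ (by decide) (by decide), show M.mm 256 = b from m6_b,
      show M.mm 0 = 1 from m6_1, Nat.cast_one, one_smul, one_smul, add_zero]
  have eW : ev (EE K t6 M) V6.W i6 = (-36 : ℤ) • (h ^ 6) := by
    have e : ev (EE K t6 M) V6.W = (-((36 : ℕ) : ℤ)) • EE K t6 M (14 + 64 * 6) +
      ((-((36 : ℕ) : ℤ)) • EE K t6 M (17 + 64 * 6) + ((-((36 : ℕ) : ℤ)) • EE K t6 M (18 + 64 * 6) +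
      ((-((36 : ℕ) : ℤ)) • EE K t6 M (21 + 64 * 6) + ((-((36 : ℕ) : ℤ)) • EE K t6 M (22 + 64 * 6) +
      ((-((36 : ℕ) : ℤ)) • EE K t6 M (25 + 64 * 6) + 0))))) := rfl
    rw [e, EE_key _ (by decide) (by decide), EE_key _ (by decide) (by decide), EE_key _ (by decide) (by decide),
      EE_key _ (by decide) (by decide), EE_key _ (by decide) (by decide), EE_key _ (by decide) (by decide),
      show M.mm 6 = h ^ 6 from m6_t]
    simp only [add_app, smul_app, sgl_apply]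
    have f1 : ((i6 : Fin (D t6).N) : ℕ) = 14 := rfl
    rw [f1, if_pos rfl, if_neg (by decide), if_neg (by decide), if_neg (by decide), if_neg (by decide),
      if_neg (by decide)]
    simp only [smul_zero, zero_add]
    show (-((36 : ℕ) : ℤ)) • (h ^ 6) + (0 : C) = _
    rw [add_zero]
    rfl
  rw [← eX, ← eZ, ← eW]
  have h1 := val_ev (EE K t6 M) (EE_mul M D6.chk (by decide)) V6.X V6.Z SV.nil Ex.P6
  have h2 := eqv_ok (EE K t6 M) V6.val
  have h3 := h1.trans h2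
  exact congrFun h3 i6

end six
end

end Pool.Agent.Helper817.Chain.G5
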