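import Pool.Agent.Helper817.Chain.V5
import Pool.Agent.Helper817.Chain.V6
set_option autoImplicit false

/-! Monomials in nilpotent elements. -/

namespace Pool.Agent.Helper817.Chain.Mo
open Pool.Agent.Helper805.Mod.Sparse Pool.Agent.Helper817.Chain.Ev Pool.Agent.Helper817.Chain.Rg

variable {C : Type} [Ring C]

/-- `(s + x)^(j+1) = s^(j+1) + (j+1) s^j x` if `x^2 = 0` and `s x = x s` -/
lemma add_pow_sq {s x : C} (hc : Commute s x) (hx : x * x = 0) (j : ℕ) :
    (s + x) ^ (j + 1) = s ^ (j + 1) + (j + 1) • (s ^ j * x) := by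
  induction j with
  | zero => simp
  | succ j ih =>
    rw [pow_succ, ih, add_mul, mul_add, mul_add, smul_mul_assoc, smul_mul_assoc, mul_assoc (s ^ j) x s, ← hc.eq,
      ← mul_assoc (s ^ j) s x, ← pow_succ, mul_assoc (s ^ j) x x, hx, mul_zero, smul_zero, add_zero, ← pow_succ,
      add_assoc]
    congr 1
    rw [add_smul (j + 1) 1, one_smul, add_comm]

/-- `s` is a sum of `m` commuting elements of square zero with product `p` -/
structure Nl (s p : C) (m : ℕ) : Prop where
  top : s ^ m = (m.factorial) • p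
  zero : s ^ (m + 1) = 0

lemma Nl.base : Nl (0 : C) 1 0 := ⟨by simp, by simp⟩

lemma Nl.step {s p x : C} {m : ℕ} (h : Nl s p m) (hc : Commute s x) (hx : x * x = 0) : Nl (s + x) (p * x) (m + 1) := by
  constructor
  · rw [add_pow_sq hc hx, h.zero, zero_add, h.top, smul_mul_assoc, smul_smul, Nat.factorial_succ]
  · rw [add_pow_sq hc hx, h.zero, zero_mul, smul_zero, add_zero, pow_succ, h.zero, zero_mul]

lemma Nl.big {s p : C} {m k : ℕ} (h : Nl s p m) (hk : m < k) : s ^ k = 0 := by
  obtain ⟨d, rfl⟩ := Nat.exists_eq_add_of_lt hk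
  rw [show m + d + 1 = (m + 1) + d by ring, pow_add, h.zero, zero_mul]

lemma dg4 (i j k l : ℕ) (hi : i < 16) (hj : j < 16) (hk : k < 16) :
    (i + 16 * (j + 16 * (k + 16 * l))) % 16 = i ∧ (i + 16 * (j + 16 * (k + 16 * l))) / 16 % 16 = j ∧
      (i + 16 * (j + 16 * (k + 16 * l))) / 256 % 16 = k ∧ (i + 16 * (j + 16 * (k + 16 * l))) / 4096 = l := by
  have e1 : (i + 16 * (j + 16 * (k + 16 * l))) / 16 = j + 16 * (k + 16 * l) := by omega
  have e2 : (j + 16 * (k + 16 * l)) / 16 = k + 16 * l := by omega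
  have e3 : (k + 16 * l) / 16 = l := by omega
  have e4 : (i + 16 * (j + 16 * (k + 16 * l))) / 256 = k + 16 * l := by
    rw [show (256 : ℕ) = 16 * 16 by norm_num, ← Nat.div_div_eq_div_mul, e1, e2]
  have e5 : (i + 16 * (j + 16 * (k + 16 * l))) / 4096 = l := by
    rw [show (4096 : ℕ) = 256 * 16 by norm_num, ← Nat.div_div_eq_div_mul, e4, e3]
  rw [e1, e4, e5]
  refine ⟨by omega, by omega, by omega, rfl⟩

lemma dc4 (α : ℕ) : α = α % 16 + 16 * (α / 16 % 16 + 16 * (α / 256 % 16 + 16 * (α / 4096))) := by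
  have h1 := Nat.mod_add_div α 16
  have h2 := Nat.mod_add_div (α / 16) 16
  have h3 := Nat.mod_add_div (α / 256) 16
  have e1 : α / 16 / 16 = α / 256 := Nat.div_div_eq_div_mul _ _ _
  have e2 : α / 256 / 16 = α / 4096 := Nat.div_div_eq_div_mul _ _ _
  rw [e1] at h2
  rw [e2] at h3
  rw [h3, h2, h1]

lemma dg_add (α β : ℕ) (h0 : α % 16 + β % 16 < 16) (h1 : α / 16 % 16 + β / 16 % 16 < 16)
    (h2 : α / 256 % 16 + β / 256 % 16 < 16) :
    (α + β) % 16 = α % 16 + β % 16 ∧ (α + β) / 16 % 16 = α / 16 % 16 + β / 16 % 16 ∧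
      (α + β) / 256 % 16 = α / 256 % 16 + β / 256 % 16 ∧ (α + β) / 4096 = α / 4096 + β / 4096 := by
  have e : α + β = (α % 16 + β % 16) + 16 * ((α / 16 % 16 + β / 16 % 16) + 16 * ((α / 256 % 16 + β / 256 % 16) +
      16 * (α / 4096 + β / 4096))) := by
    conv_lhs => rw [dc4 α, dc4 β]
    ring
  have := dg4 _ _ _ (α / 4096 + β / 4096) h0 h1 h2
  rw [← e] at this
  exact this

section five
variable (h a b c : C)

/-- the monomial -/
noncomputable def m5 (α : ℕ) : C :=
  if V5.vd α = true then h ^ (α % 16) * (a ^ (α / 16 % 16) * (b ^ (α / 256 % 16) * c ^ (α / 4096))) else 0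

lemma vd5_iff (α : ℕ) : V5.vd α = true ↔ α % 16 ≤ 5 ∧ α / 16 % 16 ≤ 2 ∧ α / 256 % 16 ≤ 2 ∧ α / 4096 ≤ 2 := by
  unfold V5.vd
  rw [Bool.and_eq_true, Bool.and_eq_true, Bool.and_eq_true, Nat.ble_eq, Nat.ble_eq, Nat.ble_eq, Nat.ble_eq]
  exact Iff.rfl

variable {h a b c} (hha : Commute h a) (hhb : Commute h b) (hhc : Commute h c) (hab : Commute a b)
  (hac : Commute a c) (hbc : Commute b c) (h6 : ∀ k, 5 < k → h ^ k = 0) (a3 : ∀ k, 2 < k → a ^ k = 0)
  (b3 : ∀ k, 2 < k → b ^ k = 0) (c3 : ∀ k, 2 < k → c ^ k = 0)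
include hha hhb hhc hab hac hbc

lemma prod5 (i j k l i' j' k' l' : ℕ) :
    h ^ i * (a ^ j * (b ^ k * c ^ l)) * (h ^ i' * (a ^ j' * (b ^ k' * c ^ l'))) =
      h ^ (i + i') * (a ^ (j + j') * (b ^ (k + k') * c ^ (l + l'))) := by
  have e1 : Commute (a ^ j * (b ^ k * c ^ l)) (h ^ i') :=
    ((hha.symm.pow_pow j i').mul_left ((hhb.symm.pow_pow k i').mul_left (hhc.symm.pow_pow l i')))
  have e2 : Commute (b ^ k * c ^ l) (a ^ j') := (hab.symm.pow_pow k j').mul_left (hac.symm.pow_pow l j')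
  have e3 : Commute (c ^ l) (b ^ k') := hbc.symm.pow_pow l k'
  rw [e1.mul_mul_mul_comm, e2.mul_mul_mul_comm, e3.mul_mul_mul_comm, ← pow_add, ← pow_add, ← pow_add, ← pow_add]

include h6 a3 b3 c3

lemma law5 (α β : ℕ) : m5 h a b c α * m5 h a b c β = ev (m5 h a b c) (V5.op α β) := by
  by_cases hα : V5.vd α = true
  · by_cases hβ : V5.vd β = true
    · have h1 := (vd5_iff α).mp hα
      have h2 := (vd5_iff β).mp hβ
      obtain ⟨d0, d1, d2, d3⟩ := dg_add α β (by omega) (by omega) (by omega)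
      have e : m5 h a b c α * m5 h a b c β = h ^ ((α + β) % 16) * (a ^ ((α + β) / 16 % 16) *
          (b ^ ((α + β) / 256 % 16) * c ^ ((α + β) / 4096))) := by
        unfold m5
        rw [if_pos hα, if_pos hβ, prod5 hha hhb hhc hab hac hbc, d0, d1, d2, d3]
      rw [e]
      by_cases hs : V5.vd (α + β) = true
      · have e2 : V5.op α β = SV.p (α + β) 1 SV.nil := by
          unfold V5.op
          rw [hα, hβ, show V5.vd (Nat.add α β) = true from hs]; rfl
        rw [e2]
        show _ = ((1 : ℕ) : ℤ) • m5 h a b c (α + β) + 0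
        rw [Nat.cast_one, one_smul, add_zero]
        unfold m5
        rw [if_pos hs]
      · have e2 : V5.op α β = SV.nil := by
          unfold V5.op
          rw [hα, hβ, show V5.vd (Nat.add α β) = false from Bool.eq_false_iff.mpr hs]; rfl
        rw [e2]
        show _ = (0 : C)
        rw [vd5_iff] at hs
        by_cases g0 : (α + β) % 16 ≤ 5
        · by_cases g1 : (α + β) / 16 % 16 ≤ 2
          · by_cases g2 : (α + β) / 256 % 16 ≤ 2
            · have g3 : ¬ (α + β) / 4096 ≤ 2 := fun g3 => hs ⟨g0, g1, g2, g3⟩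
              rw [c3 _ (by omega), mul_zero, mul_zero, mul_zero]
            · rw [b3 _ (by omega), zero_mul, mul_zero, mul_zero]
          · rw [a3 _ (by omega), zero_mul, mul_zero]
        · rw [h6 _ (by omega), zero_mul]
    · have e2 : V5.op α β = SV.nil := by
        unfold V5.op
        rw [Bool.eq_false_iff.mpr hβ, Bool.false_and, Bool.and_false]; rfl
      rw [e2]
      unfold m5
      rw [if_neg hβ, mul_zero]; rfl
  · have e2 : V5.op α β = SV.nil := by
      unfold V5.op
      rw [Bool.eq_false_iff.mpr hα, Bool.false_and]; rfl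
    rw [e2]
    unfold m5
    rw [if_neg hα, zero_mul]; rfl

/-- the family of monomials -/
noncomputable def mon5 : Mon C := ⟨m5 h a b c, V5.op, law5 hha hhb hhc hab hac hbc h6 a3 b3 c3⟩

end five

section six
variable (h a b : C)

/-- the monomial -/
noncomputable def m6 (α : ℕ) : C :=
  if V6.vd α = true then h ^ (α % 16) * (a ^ (α / 16 % 16) * b ^ (α / 256)) else 0

lemma vd6_iff (α : ℕ) : V6.vd α = true ↔ α % 16 ≤ 6 ∧ α / 16 % 16 ≤ 1 ∧ α / 256 ≤ 1 := by
  unfold V6.vd
  rw [Bool.and_eq_true, Bool.and_eq_true, Nat.ble_eq, Nat.ble_eq, Nat.ble_eq]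
  exact Iff.rfl

variable {h a b} (hha : a * h = -(h * a)) (hhb : b * h = -(h * b)) (hab : Commute a b)
  (h7 : ∀ k, 6 < k → h ^ k = 0) (a2 : ∀ k, 1 < k → a ^ k = 0) (b2 : ∀ k, 1 < k → b ^ k = 0)

lemma anti_pow {x y : C} (hxy : x * y = -(y * x)) (i : ℕ) : x * y ^ i = ((-1 : ℤ) ^ i) • (y ^ i * x) := by
  induction i with
  | zero => simp
  | succ i ih =>
    rw [pow_succ y i, ← mul_assoc, ih, smul_mul_assoc, mul_assoc, hxy, pow_succ (-1 : ℤ) i, mul_neg, smul_neg,
      ← mul_assoc, mul_smul, neg_one_zsmul, smul_neg]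

include hha hhb hab

lemma swap6 (j k i' : ℕ) (hj : j ≤ 1) (hk : k ≤ 1) :
    (a ^ j * b ^ k) * h ^ i' = ((-1 : ℤ) ^ ((j + k) * i')) • (h ^ i' * (a ^ j * b ^ k)) := by
  interval_cases j <;> interval_cases k
  · simp
  · simp only [pow_zero, one_mul, pow_one, zero_add]
    exact anti_pow hhb i'
  · simp only [pow_zero, mul_one, pow_one, add_zero, one_mul]
    exact anti_pow hha i'
  · simp only [pow_one]
    rw [mul_assoc, anti_pow hhb, mul_smul_comm, ← mul_assoc, anti_pow hha, smul_mul_assoc, smul_smul, mul_assoc]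
    congr 1
    rw [← pow_add]
    congr 1
    ring

lemma prod6 (i j k i' j' k' : ℕ) (hj : j ≤ 1) (hk : k ≤ 1) :
    h ^ i * (a ^ j * b ^ k) * (h ^ i' * (a ^ j' * b ^ k')) =
      ((-1 : ℤ) ^ ((j + k) * i')) • (h ^ (i + i') * (a ^ (j + j') * b ^ (k + k'))) := by
  have e2 : Commute (b ^ k) (a ^ j') := hab.symm.pow_pow k j'
  rw [mul_assoc, ← mul_assoc (a ^ j * b ^ k), swap6 hha hhb hab j k i' hj hk, smul_mul_assoc, mul_smul_comm,
    mul_assoc (h ^ i'), e2.mul_mul_mul_comm, ← pow_add a, ← pow_add b, ← mul_assoc (h ^ i), ← pow_add]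

include h7 a2 b2

lemma law6 (α β : ℕ) : m6 h a b α * m6 h a b β = ev (m6 h a b) (V6.op α β) := by
  by_cases hα : V6.vd α = true
  · by_cases hβ : V6.vd β = true
    · have h1 := (vd6_iff α).mp hα
      have h2 := (vd6_iff β).mp hβ
      have hd : ∀ x, x / 256 ≤ 1 → x / 256 % 16 = x / 256 ∧ x / 4096 = 0 := by
        intro x hx
        refine ⟨by omega, ?_⟩
        rw [show (4096 : ℕ) = 256 * 16 by norm_num, ← Nat.div_div_eq_div_mul]
        omega
      obtain ⟨d0, d1, d2', d3⟩ := dg_add α β (by omega) (by omega)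
        (by rw [(hd α h1.2.2).1, (hd β h2.2.2).1]; omega)
      rw [(hd α h1.2.2).1, (hd β h2.2.2).1] at d2'
      rw [(hd α h1.2.2).2, (hd β h2.2.2).2] at d3
      have d2 : (α + β) / 256 = α / 256 + β / 256 := by
        have e4 : (α + β) / 256 / 16 = (α + β) / 4096 := Nat.div_div_eq_div_mul _ _ _
        omega
      have e : m6 h a b α * m6 h a b β = ((-1 : ℤ) ^ ((α / 16 % 16 + α / 256) * (β % 16))) •
          (h ^ ((α + β) % 16) * (a ^ ((α + β) / 16 % 16) * b ^ ((α + β) / 256))) := by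
        unfold m6
        rw [if_pos hα, if_pos hβ, prod6 hha hhb hab _ _ _ _ _ _ h1.2.1 h1.2.2, d0, d1, d2]
      rw [e]
      by_cases hs : V6.vd (α + β) = true
      · by_cases hsn : V6.sn α β = true
        · have e2 : V6.op α β = SV.n (α + β) 1 SV.nil := by
            unfold V6.op
            rw [hα, hβ, show V6.vd (Nat.add α β) = true from hs, hsn]; rfl
          have hodd : Odd ((α / 16 % 16 + α / 256) * (β % 16)) := by
            rw [Nat.odd_iff]
            exact Nat.eq_of_beq_eq_true hsn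
          rw [e2, hodd.neg_one_pow]
          show _ = (-((1 : ℕ) : ℤ)) • m6 h a b (α + β) + 0
          rw [Nat.cast_one, add_zero]
          unfold m6
          rw [if_pos hs]
        · have e2 : V6.op α β = SV.p (α + β) 1 SV.nil := by
            unfold V6.op
            rw [hα, hβ, show V6.vd (Nat.add α β) = true from hs, Bool.eq_false_iff.mpr hsn]; rfl
          have heven : Even ((α / 16 % 16 + α / 256) * (β % 16)) := by
            rw [← Nat.not_odd_iff_even, Nat.odd_iff]
            intro h3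
            apply hsn
            show Nat.beq ((α / 16 % 16 + α / 256) * (β % 16) % 2) 1 = true
            rw [h3]; rfl
          rw [e2, heven.neg_one_pow]
          show _ = (((1 : ℕ) : ℤ)) • m6 h a b (α + β) + 0
          rw [Nat.cast_one, add_zero]
          unfold m6
          rw [if_pos hs]
      · have e2 : V6.op α β = SV.nil := by
          unfold V6.op
          rw [hα, hβ, show V6.vd (Nat.add α β) = false from Bool.eq_false_iff.mpr hs]; rfl
        rw [e2]
        show _ = (0 : C)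
        rw [vd6_iff] at hs
        have e3 : h ^ ((α + β) % 16) * (a ^ ((α + β) / 16 % 16) * b ^ ((α + β) / 256)) = 0 := by
          by_cases g0 : (α + β) % 16 ≤ 6
          · by_cases g1 : (α + β) / 16 % 16 ≤ 1
            · have g3 : ¬ (α + β) / 256 ≤ 1 := fun g3 => hs ⟨g0, g1, g3⟩
              rw [b2 _ (by omega), mul_zero, mul_zero]
            · rw [a2 _ (by omega), zero_mul, mul_zero]
          · rw [h7 _ (by omega), zero_mul]
        rw [e3, smul_zero]
    · have e2 : V6.op α β = SV.nil := by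
        unfold V6.op
        rw [Bool.eq_false_iff.mpr hβ, Bool.false_and, Bool.and_false]; rfl
      rw [e2]
      unfold m6
      rw [if_neg hβ, mul_zero]; rfl
  · have e2 : V6.op α β = SV.nil := by
      unfold V6.op
      rw [Bool.eq_false_iff.mpr hα, Bool.false_and]; rfl
    rw [e2]
    unfold m6
    rw [if_neg hα, zero_mul]; rfl

/-- the family of monomials -/
noncomputable def mon6 : Mon C := ⟨m6 h a b, V6.op, law6 hha hhb hab h7 a2 b2⟩

end six

end Pool.Agent.Helper817.Chain.Mo
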