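import Pool.Agent.Helper817.Chain.It
import Pool.Agent.Helper817.Chain.G6
set_option autoImplicit false

/-! The values of `F5` and `F6` in the models. -/

namespace Pool.Agent.Helper817.Chain.N5
open scoped TensorProduct
open Pool.Agent.Helper805.Nuc.Ext Pool.Agent.Helper805.Nuc.Tens Pool.Agent.Helper805.Chain
  Pool.Agent.Helper805.Mod Pool.Agent.Helper805.Mod.Sparse Pool.Agent.Helper817.Chain.Tab Pool.Agent.Helper817.Chain.Rg
  Pool.Agent.Helper817.Chain.Xi Pool.Agent.Helper817.Chain.It Pool.Agent.Helper817.Chain.G5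

variable (K : Type) [Field K] (n : ℕ)

/-- the generators over the integers -/
noncomputable def gZ (m : ℕ) (j : ℕ) : ExteriorAlgebra ℤ (Fin m → ℤ) := if h : j < m then gen ℤ m ⟨j, h⟩ else 0

lemma gZ_anti (m i j : ℕ) : gZ m i * gZ m j = -(gZ m j * gZ m i) := by
  unfold gZ
  split_ifs with h1 h2 h2
  · exact gen_swap ℤ m _ _
  · simp
  · simp
  · simp

lemma gZ_sq (m i : ℕ) : gZ m i * gZ m i = 0 := by
  unfold gZ
  split_ifs with h
  · exact ExteriorAlgebra.ι_sq_zero _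
  · simp

lemma gZ_fin (m : ℕ) (j : Fin m) : gen ℤ m j = gZ m j := by
  unfold gZ
  rw [dif_pos j.2]

/-- products of generators -/
noncomputable def ww (m i j : ℕ) : CC K n m := gN K n i ⊗ₜ[ℤ] gZ m j

lemma ww_comm (m i j k l : ℕ) : Commute (ww K n m i j) (ww K n m k l) := by
  show ww K n m i j * ww K n m k l = ww K n m k l * ww K n m i j
  unfold ww
  rw [Algebra.TensorProduct.tmul_mul_tmul, Algebra.TensorProduct.tmul_mul_tmul, gN_anti, gZ_anti,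
    TensorProduct.neg_tmul, TensorProduct.tmul_neg, neg_neg]

lemma ww_sq (m i j : ℕ) : ww K n m i j * ww K n m i j = 0 := by
  unfold ww
  rw [Algebra.TensorProduct.tmul_mul_tmul, gN_sq, TensorProduct.zero_tmul]

lemma Xi_w (t : Tbl) {m : ℕ} (k i : ℕ) (j : Fin m) : Xi K n t (te (sgl K t k (gN K n i)) [j]) =
    sgl K t k (ww K n m i j) := by
  rw [Xi_te_one, gZ_fin]; rfl

/-- the arguments -/
noncomputable def y (j : ℕ) : SR K (LK K n) t5 :=
  if j = 0 then sgl K t5 1 (gN K n 0) + sgl K t5 2 (gN K n 5)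
  else if j = 1 then sgl K t5 1 (gN K n 1) + sgl K t5 2 (gN K n 6)
  else if j < 5 then sgl K t5 1 (gN K n j) else sgl K t5 1 (gN K n (j + 2))

lemma y0 : y K n 0 = sgl K t5 1 (gN K n 0) + sgl K t5 2 (gN K n 5) := rfl
lemma y1 : y K n 1 = sgl K t5 1 (gN K n 1) + sgl K t5 2 (gN K n 6) := rfl
lemma y2 : y K n 2 = sgl K t5 1 (gN K n 2) := rfl
lemma y3 : y K n 3 = sgl K t5 1 (gN K n 3) := rfl
lemma y4 : y K n 4 = sgl K t5 1 (gN K n 4) := rfl
lemma y_big (j : ℕ) (hj : 5 ≤ j) : y K n j = sgl K t5 1 (gN K n (j + 2)) := by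
  unfold y
  rw [if_neg (by omega), if_neg (by omega), if_neg (by omega)]

lemma Xi_XX : Xi K n t5 (XX emb5 (fun s : Fin 5 => y K n s)) =
    sgl K t5 1 (0 + ww K n 7 0 0 + ww K n 7 1 1 + ww K n 7 2 2 + ww K n 7 3 3 + ww K n 7 4 4) +
      sgl K t5 2 (0 + ww K n 7 5 0 + ww K n 7 6 1) := by
  have e : XX emb5 (fun s : Fin 5 => y K n s) = te (y K n 0) [0] + te (y K n 1) [1] + te (y K n 2) [2] +
      te (y K n 3) [3] + te (y K n 4) [4] := by
    unfold XX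
    rw [Fin.sum_univ_five]
    rfl
  have a0 : ((0 : Fin 7) : ℕ) = 0 := rfl
  have a1 : ((1 : Fin 7) : ℕ) = 1 := rfl
  have a2 : ((2 : Fin 7) : ℕ) = 2 := rfl
  have a3 : ((3 : Fin 7) : ℕ) = 3 := rfl
  have a4 : ((4 : Fin 7) : ℕ) = 4 := rfl
  rw [e, y0, y1, y2, y3, y4, ← te_add, ← te_add, map_add, map_add, map_add, map_add, map_add, map_add, Xi_w, Xi_w,
    Xi_w, Xi_w, Xi_w, Xi_w, Xi_w, a0, a1, a2, a3, a4]
  simp only [map_add, map_zero]
  abel

lemma Xi_par : Xi K n t5 (par5 (y K n 0) (y K n 1)) =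
    sgl K t5 1 (0 + ww K n 7 0 5 + ww K n 7 1 6) + sgl K t5 2 (0 + ww K n 7 5 5 + ww K n 7 6 6) := by
  unfold par5
  have a5 : ((5 : Fin 7) : ℕ) = 5 := rfl
  have a6 : ((6 : Fin 7) : ℕ) = 6 := rfl
  rw [y0, y1, ← te_add, ← te_add, map_add, map_add, map_add, Xi_w, Xi_w, Xi_w, Xi_w, a5, a6]
  simp only [map_add, map_zero]
  abel

lemma prod_eq : ((1 * ww K n 7 0 0 * ww K n 7 1 1 * ww K n 7 2 2 * ww K n 7 3 3 * ww K n 7 4 4) *
    (1 * ww K n 7 5 5 * ww K n 7 6 6) : CC K n 7) = (PR K n 7) ⊗ₜ[ℤ] (E ℤ 7 (List.ofFn (fun i : Fin 7 => i))) := by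
  unfold ww
  have e1 : (1 : CC K n 7) = (1 : LK K n) ⊗ₜ[ℤ] (1 : ExteriorAlgebra ℤ (Fin 7 → ℤ)) := rfl
  rw [e1]
  simp only [Algebra.TensorProduct.tmul_mul_tmul]
  have e2 : PR K n 7 = 1 * gN K n 0 * gN K n 1 * gN K n 2 * gN K n 3 * gN K n 4 * gN K n 5 * gN K n 6 := rfl
  have e3 : E ℤ 7 (List.ofFn (fun i : Fin 7 => i)) = 1 * gZ 7 0 * gZ 7 1 * gZ 7 2 * gZ 7 3 * gZ 7 4 * gZ 7 5 * gZ 7 6 := by
    have e4 : E ℤ 7 (List.ofFn (fun i : Fin 7 => i)) = ([0, 1, 2, 3, 4, 5, 6].map (gen ℤ 7)).prod := rfl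
    rw [e4]
    simp only [List.map_cons, List.map_nil, List.prod_cons, List.prod_nil, one_mul, mul_one, mul_assoc]
    rfl
  rw [e2, e3]
  simp only [one_mul, mul_assoc]

/-- the value of `F5` -/
theorem F5_eq : F5 (fun s : Fin 5 => y K n s) (y K n 0) (y K n 1) i5 = (-8640 : ℤ) • PR K n 7 := by
  unfold F5
  rw [Fv_eq, Xi_XX, Xi_par, map_zero, P5_w (w := ww K n 7) (ww_comm K n 7) (ww_sq K n 7), map_zsmul, prod_eq, tau_tmul,
    top_E, one_smul]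

end Pool.Agent.Helper817.Chain.N5
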