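import Pool.Agent.Helper805.Mod.Super
import Pool.Agent.Helper805.Mod.Sparse
set_option autoImplicit false

/-! A kernel check that a small table of integer structure constants defines a super-alternative superalgebra. -/

namespace Pool.Agent.Helper817.Chain.Tab
open Pool.Agent.Helper805.Mod.Sparse Pool.Agent.Helper805.Mod

/-- a table: rank, parities, products of basis vectors -/
structure Tbl where
  N : ℕ
  par : ℕ → ℕ
  T : ℕ → ℕ → SV

variable (t : Tbl)

/-- the structure constants -/
noncomputable def D : Super.Data where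
  N := t.N
  c := fun i j k => (t.T i j).cf k
  par := t.par

noncomputable def pw (k : ℕ) : ℕ := Nat.pow 4294967296 k
noncomputable def VP (i j : ℕ) : ℕ := SV.lin pw (fun _ => 0) (t.T i j)
noncomputable def VN (i j : ℕ) : ℕ := SV.lin (fun _ => 0) pw (t.T i j)
noncomputable def PP (i j k : ℕ) : ℕ :=
  Nat.add (SV.lin (fun m => VP t m k) (fun m => VN t m k) (t.T i j)) (SV.lin (fun m => VN t i m) (fun m => VP t i m) (t.T j k))
noncomputable def PN (i j k : ℕ) : ℕ :=
  Nat.add (SV.lin (fun m => VN t m k) (fun m => VP t m k) (t.T i j)) (SV.lin (fun m => VP t i m) (fun m => VN t i m) (t.T j k))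

/-- equality of two associators up to the sign -/
noncomputable def eqA (s : Bool) (i j k i' j' k' : ℕ) : Bool :=
  cond s (Nat.beq (Nat.add (PP t i j k) (PN t i' j' k')) (Nat.add (PN t i j k) (PP t i' j' k')))
    (Nat.beq (Nat.add (PP t i j k) (PP t i' j' k')) (Nat.add (PN t i j k) (PN t i' j' k')))

/-- all entries have keys below `N` of the right parity -/
noncomputable def gr (u : ℕ) (v : SV) : Bool :=
  SV.rec (motive := fun _ => Bool) true
    (fun k _ _ ih => and (Nat.ble (Nat.succ k) t.N) (and (Nat.beq (t.par k) u) ih))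
    (fun k _ _ ih => and (Nat.ble (Nat.succ k) t.N) (and (Nat.beq (t.par k) u) ih)) v

/-- `f i` for all `i < n` -/
noncomputable def allB (n : ℕ) (f : ℕ → Bool) : Bool :=
  Nat.rec (motive := fun _ => Bool) true (fun i ih => and (f i) ih) n

theorem allB_ok {n : ℕ} {f : ℕ → Bool} (h : allB n f = true) : ∀ i < n, f i = true := by
  induction n with
  | zero => intro i hi; omega
  | succ n ih =>
    have h1 : (and (f n) (allB n f)) = true := h
    rw [Bool.and_eq_true] at h1
    intro i hi
    rcases Nat.lt_succ_iff_lt_or_eq.mp hi with h2 | h2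
    · exact ih h1.2 i h2
    · rw [h2]; exact h1.1

noncomputable def chkPar : Bool := allB t.N (fun i => Nat.ble (t.par i) 1)

noncomputable def chkGrade : Bool :=
  allB t.N (fun i => allB t.N (fun j =>
    and (gr t (Nat.mod (Nat.add (t.par i) (t.par j)) 2) (t.T i j)) (Nat.ble (SV.abs1 (t.T i j)) 8192)))

noncomputable def chkL : Bool :=
  allB t.N (fun i => allB (Nat.succ i) (fun j => allB t.N (fun k =>
    eqA t (Nat.beq (Nat.mul (t.par i) (t.par j)) 1) i j k j i k)))

noncomputable def chkR : Bool :=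
  allB t.N (fun i => allB t.N (fun j => allB (Nat.succ j) (fun k =>
    eqA t (Nat.beq (Nat.mul (t.par j) (t.par k)) 1) i j k i k j)))

/-- the checks -/
structure Chk : Prop where
  par : chkPar t = true
  gr : chkGrade t = true
  l : chkL t = true
  r : chkR t = true

section
variable {t}

theorem gr_ok {u : ℕ} {v : SV} (h : gr t u v = true) :
    v.Ok t.N ∧ ∀ l, SV.cf l v ≠ 0 → l < t.N ∧ t.par l = u := by
  induction v with
  | nil => exact ⟨trivial, fun l hl => absurd rfl hl⟩
  | p k a s ih =>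
    have h1 : (and (Nat.ble (Nat.succ k) t.N) (and (Nat.beq (t.par k) u) (gr t u s))) = true := h
    rw [Bool.and_eq_true, Bool.and_eq_true, Nat.beq_eq, Nat.ble_eq] at h1
    obtain ⟨h1, h2, h4⟩ := h1
    have h5 := ih h4
    refine ⟨⟨h1, h5.1⟩, fun l hl => ?_⟩
    by_cases hk : k = l
    · rw [← hk]; exact ⟨h1, h2⟩
    · apply h5.2
      rw [SV.cf, if_neg hk, zero_add] at hl
      exact hl
  | n k a s ih =>
    have h1 : (and (Nat.ble (Nat.succ k) t.N) (and (Nat.beq (t.par k) u) (gr t u s))) = true := h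
    rw [Bool.and_eq_true, Bool.and_eq_true, Nat.beq_eq, Nat.ble_eq] at h1
    obtain ⟨h1, h2, h4⟩ := h1
    have h5 := ih h4
    refine ⟨⟨h1, h5.1⟩, fun l hl => ?_⟩
    by_cases hk : k = l
    · rw [← hk]; exact ⟨h1, h2⟩
    · apply h5.2
      rw [SV.cf, if_neg hk, zero_add] at hl
      exact hl

variable (H : Chk t)
include H

theorem grade {i j : ℕ} (hi : i < t.N) (hj : j < t.N) :
    ((t.T i j).Ok t.N ∧ ∀ l, (t.T i j).cf l ≠ 0 → l < t.N ∧ t.par l = (t.par i + t.par j) % 2) ∧
      (t.T i j).abs1 ≤ 8192 := by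
  have h := allB_ok (allB_ok H.gr i hi) j hj
  rw [Bool.and_eq_true, Nat.ble_eq] at h
  exact ⟨gr_ok h.1, h.2⟩

theorem V_eq {i j : ℕ} (hi : i < t.N) (hj : j < t.N) :
    (VP t i j : ℤ) - (VN t i j : ℤ) = ∑ l : Fin t.N, (t.T i j).cf l * (pw l : ℤ) := by
  have h := SV.lin_eq pw (fun _ => 0) (grade H hi hj).1.1
  simp only [Nat.cast_zero, sub_zero] at h
  exact h

theorem A_eq {i j k : ℕ} (hi : i < t.N) (hj : j < t.N) (hk : k < t.N) :
    (PP t i j k : ℤ) - (PN t i j k : ℤ) = ∑ l : Fin t.N, (D t).A i j k l * (pw l : ℤ) := by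
  have h1 := SV.lin_eq (fun m => VP t m k) (fun m => VN t m k) (grade H hi hj).1.1
  have h2 := SV.lin_eq (fun m => VN t i m) (fun m => VP t i m) (grade H hj hk).1.1
  have h3 : (PP t i j k : ℤ) - (PN t i j k : ℤ) =
      ((SV.lin (fun m => VP t m k) (fun m => VN t m k) (t.T i j) : ℤ) -
        (SV.lin (fun m => VN t m k) (fun m => VP t m k) (t.T i j) : ℤ)) +
      ((SV.lin (fun m => VN t i m) (fun m => VP t i m) (t.T j k) : ℤ) -
        (SV.lin (fun m => VP t i m) (fun m => VN t i m) (t.T j k) : ℤ)) := by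
    have e1 : PP t i j k = SV.lin (fun m => VP t m k) (fun m => VN t m k) (t.T i j) +
      SV.lin (fun m => VN t i m) (fun m => VP t i m) (t.T j k) := rfl
    have e2 : PN t i j k = SV.lin (fun m => VN t m k) (fun m => VP t m k) (t.T i j) +
      SV.lin (fun m => VP t i m) (fun m => VN t i m) (t.T j k) := rfl
    rw [e1, e2]
    push_cast
    ring
  rw [h3, h1, h2]
  have h4 : ∑ m : Fin t.N, SV.cf m (t.T i j) * ((VP t m k : ℤ) - (VN t m k : ℤ)) =
      ∑ l : Fin t.N, (∑ m : Fin t.N, SV.cf m (t.T i j) * SV.cf l (t.T m k)) * (pw l : ℤ) := by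
    simp only [Finset.sum_mul]
    rw [Finset.sum_comm]
    refine Finset.sum_congr rfl fun m _ => ?_
    rw [V_eq H m.2 hk, Finset.mul_sum]
    refine Finset.sum_congr rfl fun l _ => ?_
    ring
  have h5 : ∑ m : Fin t.N, SV.cf m (t.T j k) * ((VN t i m : ℤ) - (VP t i m : ℤ)) =
      - ∑ l : Fin t.N, (∑ m : Fin t.N, SV.cf m (t.T j k) * SV.cf l (t.T i m)) * (pw l : ℤ) := by
    simp only [Finset.sum_mul]
    rw [Finset.sum_comm, ← Finset.sum_neg_distrib]
    refine Finset.sum_congr rfl fun m _ => ?_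
    have h6 : (VN t i m : ℤ) - (VP t i m : ℤ) = - ((VP t i m : ℤ) - (VN t i m : ℤ)) := by ring
    rw [h6, V_eq H hi m.2, mul_neg, Finset.mul_sum]
    congr 1
    refine Finset.sum_congr rfl fun l _ => ?_
    ring
  rw [h4, h5, ← sub_eq_add_neg, ← Finset.sum_sub_distrib]
  refine Finset.sum_congr rfl fun l _ => ?_
  rw [← sub_mul]
  rfl

theorem c_bound {i j : ℕ} (hi : i < t.N) (hj : j < t.N) (l : ℕ) : |(t.T i j).cf l| ≤ 8192 := by
  have h1 := SV.abs_cf_le l (t.T i j)
  have h2 := (grade H hi hj).2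
  have h3 : ((t.T i j).abs1 : ℤ) ≤ 8192 := by exact_mod_cast h2
  exact le_trans h1 h3

theorem c_sum {i j : ℕ} (hi : i < t.N) (hj : j < t.N) : ∑ m : Fin t.N, |(t.T i j).cf m| ≤ 8192 := by
  have h1 := SV.sum_abs_cf_le (grade H hi hj).1.1
  have h2 := (grade H hi hj).2
  have h3 : ((t.T i j).abs1 : ℤ) ≤ 8192 := by exact_mod_cast h2
  exact le_trans h1 h3

theorem A_bound {i j k : ℕ} (hi : i < t.N) (hj : j < t.N) (hk : k < t.N) (l : ℕ) :
    |(D t).A i j k l| ≤ 134217728 := by
  have h1 : |∑ m : Fin t.N, (t.T i j).cf m * (t.T m k).cf l| ≤ 67108864 := by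
    refine le_trans (Finset.abs_sum_le_sum_abs _ _) ?_
    have : ∑ m : Fin t.N, |(t.T i j).cf m * (t.T m k).cf l| ≤ ∑ m : Fin t.N, |(t.T i j).cf m| * 8192 := by
      refine Finset.sum_le_sum fun m _ => ?_
      rw [abs_mul]
      exact mul_le_mul_of_nonneg_left (c_bound H m.2 hk l) (abs_nonneg _)
    rw [← Finset.sum_mul] at this
    have h2 := c_sum H hi hj
    linarith
  have h2 : |∑ m : Fin t.N, (t.T j k).cf m * (t.T i m).cf l| ≤ 67108864 := by
    refine le_trans (Finset.abs_sum_le_sum_abs _ _) ?_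
    have : ∑ m : Fin t.N, |(t.T j k).cf m * (t.T i m).cf l| ≤ ∑ m : Fin t.N, |(t.T j k).cf m| * 8192 := by
      refine Finset.sum_le_sum fun m _ => ?_
      rw [abs_mul]
      exact mul_le_mul_of_nonneg_left (c_bound H hi m.2 l) (abs_nonneg _)
    rw [← Finset.sum_mul] at this
    have h2 := c_sum H hj hk
    linarith
  have h3 : (D t).A i j k l = (∑ m : Fin t.N, (t.T i j).cf m * (t.T m k).cf l) -
    ∑ m : Fin t.N, (t.T j k).cf m * (t.T i m).cf l := rfl
  rw [h3]
  have := abs_sub (∑ m : Fin t.N, (t.T i j).cf m * (t.T m k).cf l) (∑ m : Fin t.N, (t.T j k).cf m * (t.T i m).cf l)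
  linarith

/-- a packed equality of associators gives the equality -/
theorem unpack {i j k i' j' k' : ℕ} (hi : i < t.N) (hj : j < t.N) (hk : k < t.N) (hi' : i' < t.N) (hj' : j' < t.N)
    (hk' : k' < t.N) (s : Bool) (h : eqA t s i j k i' j' k' = true) {l : ℕ} (hl : l < t.N) :
    (D t).A i j k l + (if s = true then (-1 : ℤ) else 1) * (D t).A i' j' k' l = 0 := by
  let a : ℕ → ℤ := fun l => (D t).A i j k l + (if s = true then (-1 : ℤ) else 1) * (D t).A i' j' k' l
  have h1 := A_eq H hi hj hk
  have h2 := A_eq H hi' hj' hk'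
  have h3 : ∑ l : Fin t.N, a l * (pw l : ℤ) = 0 := by
    have h4 : ∑ l : Fin t.N, a l * (pw l : ℤ) = ((PP t i j k : ℤ) - (PN t i j k : ℤ)) +
        (if s = true then (-1 : ℤ) else 1) * ((PP t i' j' k' : ℤ) - (PN t i' j' k' : ℤ)) := by
      rw [h1, h2, Finset.mul_sum, ← Finset.sum_add_distrib]
      refine Finset.sum_congr rfl fun l _ => ?_
      show ((D t).A i j k l + (if s = true then (-1 : ℤ) else 1) * (D t).A i' j' k' l) * (pw l : ℤ) = _
      ring
    rw [h4]
    cases s with
    | true =>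
      have h5 : Nat.beq (PP t i j k + PN t i' j' k') (PN t i j k + PP t i' j' k') = true := h
      rw [Nat.beq_eq] at h5
      have h6 : (PP t i j k : ℤ) + PN t i' j' k' = PN t i j k + PP t i' j' k' := by exact_mod_cast h5
      simp only [if_true]
      linarith
    | false =>
      have h5 : Nat.beq (PP t i j k + PP t i' j' k') (PN t i j k + PN t i' j' k') = true := h
      rw [Nat.beq_eq] at h5
      have h6 : (PP t i j k : ℤ) + PP t i' j' k' = PN t i j k + PN t i' j' k' := by exact_mod_cast h5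
      simp only [Bool.false_eq_true, if_false]
      linarith
  have hb : ∀ l < t.N, |a l| < 4294967296 := by
    intro l _
    have h4 := A_bound H hi hj hk l
    have h5 := A_bound H hi' hj' hk' l
    have h6 : |a l| ≤ |(D t).A i j k l| + |(if s = true then (-1 : ℤ) else 1) * (D t).A i' j' k' l| := abs_add_le _ _
    have h7 : |(if s = true then (-1 : ℤ) else 1) * (D t).A i' j' k' l| = |(D t).A i' j' k' l| := by
      cases s <;> simp
    rw [h7] at h6
    linarith
  have hs : ∑ l ∈ Finset.range t.N, a l * (4294967296 : ℤ) ^ l = 0 := by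
    rw [← Fin.sum_univ_eq_sum_range (fun l => a l * (4294967296 : ℤ) ^ l) t.N, ← h3]
    refine Finset.sum_congr rfl fun l _ => ?_
    have h9 : (pw l : ℤ) = (4294967296 : ℤ) ^ (l : ℕ) := by
      have : pw l = 4294967296 ^ (l : ℕ) := rfl
      rw [this]; push_cast; rfl
    rw [h9]
  exact digits_zero 4294967296 (by norm_num) t.N a hb hs l hl

omit H in
theorem sg_sq (i j : ℕ) : (D t).sg i j * (D t).sg i j = 1 := by
  unfold Super.Data.sg; split_ifs <;> ring

omit H in
theorem sg_comm (i j : ℕ) : (D t).sg i j = (D t).sg j i := by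
  unfold Super.Data.sg; rw [mul_comm]

omit H in
theorem sg_eq (i j : ℕ) : (D t).sg i j = if Nat.beq (Nat.mul (t.par i) (t.par j)) 1 = true then (-1 : ℤ) else 1 := by
  unfold Super.Data.sg
  simp only [Nat.beq_eq]
  rfl

theorem left_le {i j k : ℕ} (hi : i < t.N) (hj : j < t.N) (hk : k < t.N) (hij : j ≤ i) {l : ℕ} (hl : l < t.N) :
    (D t).A i j k l + (D t).sg i j * (D t).A j i k l = 0 := by
  have h := allB_ok (allB_ok (allB_ok H.l i hi) j (Nat.lt_succ_of_le hij)) k hk
  have h5 := unpack H hi hj hk hj hi hk _ h hl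
  rw [sg_eq]
  exact h5

theorem right_le {i j k : ℕ} (hi : i < t.N) (hj : j < t.N) (hk : k < t.N) (hjk : k ≤ j) {l : ℕ} (hl : l < t.N) :
    (D t).A i j k l + (D t).sg j k * (D t).A i k j l = 0 := by
  have h := allB_ok (allB_ok (allB_ok H.r i hi) j hj) k (Nat.lt_succ_of_le hjk)
  have h5 := unpack H hi hj hk hi hk hj _ h hl
  rw [sg_eq]
  exact h5

theorem good : (D t).Good where
  par_le := by
    intro i hi
    have h := allB_ok H.par i hi
    rw [Nat.ble_eq] at h
    exact Nat.lt_succ_of_le h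
  par_add := by
    intro i hi j hj k hk h
    exact ((grade H hi hj).1.2 k h).2
  left := by
    intro i hi j hj k hk l hl
    rcases le_total j i with h | h
    · exact left_le H hi hj hk h hl
    · have h1 := left_le H hj hi hk h hl
      have h2 := congrArg (fun z => (D t).sg i j * z) h1
      simp only [mul_add, mul_zero] at h2
      rw [← mul_assoc, sg_comm j i, sg_sq, one_mul] at h2
      rw [add_comm]
      exact h2
  right := by
    intro i hi j hj k hk l hl
    rcases le_total k j with h | h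
    · exact right_le H hi hj hk h hl
    · have h1 := right_le H hi hk hj h hl
      have h2 := congrArg (fun z => (D t).sg j k * z) h1
      simp only [mul_add, mul_zero] at h2
      rw [← mul_assoc, sg_comm k j, sg_sq, one_mul] at h2
      rw [add_comm]
      exact h2

end

end Pool.Agent.Helper817.Chain.Tab
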