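import Pool.Agent.Helper817.Chain.AD
import Pool.Agent.Helper928.Nuc.Free
set_option autoImplicit false
set_option linter.unusedSectionVars false

/-!
The varieties `Alt_m(Φ)` generated by the free alternative `Φ`-algebras on `m` generators, and a criterion for the
strictness of `Alt_n(Φ) ⊆ Alt_{n+1}(Φ)`.
-/

namespace Pool.Agent.Helper817.Chain
open Pool.Agent.Helper928.Nuc.Tens hiding as_add1 as_add2 as_add3 as_neg1
open Pool.Agent.Helper928.Nuc.Free Pool.Agent.Helper928.Nuc.Alt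

section defs
variable (Φ : Type) [CommRing Φ]

/-- The nonassociative polynomial `p` (an element of the free nonassociative `Φ`-algebra on the variables
`x_0, x_1, ...`) is an identity of the `Φ`-algebra `A`: it vanishes under every substitution of elements of `A` for
the variables. -/
def IsIdentity (p : FreeNonUnitalNonAssocAlgebra Φ ℕ) (A : Type) [NonUnitalNonAssocRing A] [Module Φ A]
    [IsScalarTower Φ A A] [SMulCommClass Φ A A] : Prop :=
  ∀ v : ℕ → A, FreeNonUnitalNonAssocAlgebra.lift Φ v p = 0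

/-- The `Φ`-algebra `A` belongs to the variety `Alt_m(Φ)` generated by the free alternative `Φ`-algebra on `m` free
generators: it satisfies every identity of that algebra. -/
def InAlt (m : ℕ) (A : Type) [NonUnitalNonAssocRing A] [Module Φ A] [IsScalarTower Φ A A] [SMulCommClass Φ A A] :
    Prop :=
  ∀ p : FreeNonUnitalNonAssocAlgebra Φ ℕ, IsIdentity Φ p (FreeAlt Φ (Fin m)) → IsIdentity Φ p A

end defs

section gens
variable {Φ : Type} [CommRing Φ]

lemma isAlt_FreeAlt (X : Type) : IsAlt (FreeAlt Φ X) :=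
  ⟨fun a b => (FreeAlt.alternative a b).1, fun a b => (FreeAlt.alternative a b).2⟩

/-- the free alternative algebra is generated by its free generators -/
lemma adjoin_gen (X : Type) :
    NonUnitalAlgebra.adjoin Φ (Set.range (FreeAlt.gen : X → FreeAlt Φ X)) = ⊤ := by
  set S := NonUnitalAlgebra.adjoin Φ (Set.range (FreeAlt.gen : X → FreeAlt Φ X)) with hS
  have hAlt : ∀ a b : S, (a * a) * b = a * (a * b) ∧ (b * a) * a = b * (a * a) := by
    intro a b
    constructor
    · apply Subtype.ext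
      exact (FreeAlt.alternative (a : FreeAlt Φ X) (b : FreeAlt Φ X)).1
    · apply Subtype.ext
      exact (FreeAlt.alternative (a : FreeAlt Φ X) (b : FreeAlt Φ X)).2
  have hmem : ∀ x : X, (FreeAlt.gen x : FreeAlt Φ X) ∈ S := fun x =>
    NonUnitalAlgebra.subset_adjoin Φ ⟨x, rfl⟩
  let g : FreeAlt Φ X →ₙₐ[Φ] S := FreeAlt.lift hAlt (fun x => ⟨FreeAlt.gen x, hmem x⟩)
  have h : (NonUnitalSubalgebraClass.subtype S).comp g = NonUnitalAlgHom.id Φ (FreeAlt Φ X) := by
    apply FreeAlt.hom_ext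
    intro x
    have h1 : g (FreeAlt.gen x) = ⟨FreeAlt.gen x, hmem x⟩ := FreeAlt.lift_gen hAlt _ x
    show ((g (FreeAlt.gen x) : S) : FreeAlt Φ X) = FreeAlt.gen x
    rw [h1]
  rw [eq_top_iff]
  intro a _
  have h2 : ((g a : S) : FreeAlt Φ X) = a := DFunLike.congr_fun h a
  rw [← h2]
  exact (g a).2

lemma lift_natural {A B : Type} [NonUnitalNonAssocRing A] [Module Φ A]
    [IsScalarTower Φ A A] [SMulCommClass Φ A A] [NonUnitalNonAssocRing B] [Module Φ B]
    [IsScalarTower Φ B B] [SMulCommClass Φ B B] (g : A →ₙₐ[Φ] B) (v : ℕ → A)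
    (p : FreeNonUnitalNonAssocAlgebra Φ ℕ) :
    g (FreeNonUnitalNonAssocAlgebra.lift Φ v p) = FreeNonUnitalNonAssocAlgebra.lift Φ (fun i => g (v i)) p := by
  have h : g.comp (FreeNonUnitalNonAssocAlgebra.lift Φ v) = FreeNonUnitalNonAssocAlgebra.lift Φ (fun i => g (v i)) := by
    apply FreeNonUnitalNonAssocAlgebra.hom_ext
    intro i
    simp
  exact DFunLike.congr_fun h p

/-- every identity of the free alternative algebra on `m + 1` generators is an identity of the one on `m`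
generators -/
lemma identity_down (m : ℕ) (p : FreeNonUnitalNonAssocAlgebra Φ ℕ) (h : IsIdentity Φ p (FreeAlt Φ (Fin (m + 1)))) :
    IsIdentity Φ p (FreeAlt Φ (Fin m)) := by
  intro v
  let ι : FreeAlt Φ (Fin m) →ₙₐ[Φ] FreeAlt Φ (Fin (m + 1)) :=
    FreeAlt.lift FreeAlt.alternative (fun i => FreeAlt.gen i.castSucc)
  let π : FreeAlt Φ (Fin (m + 1)) →ₙₐ[Φ] FreeAlt Φ (Fin m) :=
    FreeAlt.lift FreeAlt.alternative (fun i => if hi : i.val < m then FreeAlt.gen ⟨i.val, hi⟩ else 0)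
  have hπι : π.comp ι = NonUnitalAlgHom.id Φ (FreeAlt Φ (Fin m)) := by
    apply FreeAlt.hom_ext
    intro i
    show π (ι (FreeAlt.gen i)) = FreeAlt.gen i
    rw [show ι (FreeAlt.gen i) = FreeAlt.gen i.castSucc from FreeAlt.lift_gen _ _ i]
    rw [show π (FreeAlt.gen i.castSucc) = _ from FreeAlt.lift_gen _ _ i.castSucc]
    simp
  have h1 := lift_natural π (fun i => ι (v i)) p
  rw [h (fun i => ι (v i)), map_zero] at h1
  have h2 : (fun i => π (ι (v i))) = v := by
    funext i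
    exact DFunLike.congr_fun hπι (v i)
  rw [h2] at h1
  exact h1.symm

/-- `Alt_m(Φ) ⊆ Alt_{m+1}(Φ)` -/
theorem InAlt_mono (m : ℕ) (A : Type) [NonUnitalNonAssocRing A] [Module Φ A] [IsScalarTower Φ A A]
    [SMulCommClass Φ A A] (h : InAlt Φ m A) : InAlt Φ (m + 1) A :=
  fun p hp => h p (identity_down m p hp)

lemma InAlt_self (m : ℕ) : InAlt Φ m (FreeAlt Φ (Fin m)) := fun _ hp => hp

end gens

/-! ### natural families of alternating derivations -/

/-- A natural family of alternating derivations of `n` arguments with commuting values (and two parameters). -/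
structure PF (n : ℕ) where
  F : ∀ (R : Type) [NonUnitalNonAssocRing R], (Fin n → R) → R → R → R
  map : ∀ (R S : Type) [NonUnitalNonAssocRing R] [NonUnitalNonAssocRing S] (g : R →ₙ+* S) (v : Fin n → R) (z w : R),
    g (F R v z w) = F S (fun i => g (v i)) (g z) (g w)
  ad : ∀ (Φ : Type) [CommRing Φ] (R : Type) [NonUnitalNonAssocRing R] [Module Φ R] [IsScalarTower Φ R R]
    [SMulCommClass Φ R R], IsAlt R → ∀ z w : R, AD Φ R n (fun v => F R v z w)

/-- from `n` to `n + 2` arguments -/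
def PF.ext {n : ℕ} (P : PF n) (hn : 0 < n) : PF (n + 2) where
  F := fun R _ v z w => nxt (fun u => P.F R u z w) v
  map := by
    intro R S _ _ g v z w
    unfold nxt
    rw [map_zsmul, map_mul, P.map]
    unfold br
    rw [map_sub, map_mul, map_mul]
    rfl
  ad := fun Φ _ R _ _ _ _ hR z w => AD_step hR (P.ad Φ R hR z w) hn

/-- from `n` to `n + 2k` arguments -/
def PF.iter {n : ℕ} (P : PF n) (hn : 0 < n) : ∀ k : ℕ, PF (n + 2 * k)
  | 0 => P
  | k + 1 => (PF.iter P hn k).ext (by omega)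

/-- the image of a homomorphism from the free nonassociative algebra contains the subalgebra generated by the values of
the variables -/
lemma exists_poly {Φ : Type} [CommRing Φ] {B : Type} [NonUnitalNonAssocRing B]
    [Module Φ B] [IsScalarTower Φ B B] [SMulCommClass Φ B B] (v : ℕ → B) (z : B)
    (hz : z ∈ NonUnitalAlgebra.adjoin Φ (Set.range v)) :
    ∃ p : FreeNonUnitalNonAssocAlgebra Φ ℕ, FreeNonUnitalNonAssocAlgebra.lift Φ v p = z := by
  have h : NonUnitalAlgebra.adjoin Φ (Set.range v) ≤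
      NonUnitalAlgHom.range (FreeNonUnitalNonAssocAlgebra.lift Φ v) := by
    apply NonUnitalAlgebra.adjoin_le
    rintro _ ⟨i, rfl⟩
    exact ⟨FreeNonUnitalNonAssocAlgebra.of Φ i, FreeNonUnitalNonAssocAlgebra.lift_of_apply Φ v i⟩
  exact h hz

/-- A nonzero value (in some alternative `Φ`-algebra) of a natural family of alternating derivations with `n + 1`
arguments, the parameters lying in the subalgebra generated by the arguments, separates `Alt_n(Φ)` from
`Alt_{n+1}(Φ)`. -/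
theorem strict_of_PF' {Φ : Type} [CommRing Φ] {n : ℕ} (P : PF (n + 1)) (B : Type) [NonUnitalNonAssocRing B]
    [Module Φ B] [IsScalarTower Φ B B] [SMulCommClass Φ B B] (hB : IsAlt B) (x : Fin (n + 1) → B) (z w : B)
    (hz : z ∈ NonUnitalAlgebra.adjoin Φ (Set.range x)) (hw : w ∈ NonUnitalAlgebra.adjoin Φ (Set.range x))
    (h : P.F B x z w ≠ 0) :
    ∃ p : FreeNonUnitalNonAssocAlgebra Φ ℕ,
      IsIdentity Φ p (FreeAlt Φ (Fin n)) ∧ ¬ IsIdentity Φ p (FreeAlt Φ (Fin (n + 1))) := by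
  let X : ℕ → FreeNonUnitalNonAssocAlgebra Φ ℕ := FreeNonUnitalNonAssocAlgebra.of Φ
  let y : ℕ → B := fun k => if hk : k < n + 1 then x ⟨k, hk⟩ else 0
  have hy : ∀ i : Fin (n + 1), y i.val = x i := by
    intro i
    show (if hk : i.val < n + 1 then x ⟨i.val, hk⟩ else 0) = x i
    rw [dif_pos i.isLt]
  have hle : NonUnitalAlgebra.adjoin Φ (Set.range x) ≤ NonUnitalAlgebra.adjoin Φ (Set.range y) := by
    apply NonUnitalAlgebra.adjoin_mono
    rintro _ ⟨i, rfl⟩
    exact ⟨i.val, hy i⟩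
  obtain ⟨pz, hpz⟩ := exists_poly y z (hle hz)
  obtain ⟨pw, hpw⟩ := exists_poly y w (hle hw)
  refine ⟨P.F (FreeNonUnitalNonAssocAlgebra Φ ℕ) (fun i => X i.val) pz pw, ?_, ?_⟩
  · intro v
    have h1 := P.map (FreeNonUnitalNonAssocAlgebra Φ ℕ) (FreeAlt Φ (Fin n))
      (FreeNonUnitalNonAssocAlgebra.lift Φ v : FreeNonUnitalNonAssocAlgebra Φ ℕ →ₙ+* FreeAlt Φ (Fin n))
      (fun i => X i.val) pz pw
    exact h1.trans (AD_vanish (P.ad Φ (FreeAlt Φ (Fin n)) (isAlt_FreeAlt _) _ _) (Nat.lt_succ_self n)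
      FreeAlt.gen (adjoin_gen (Fin n)) _)
  · intro hid
    apply h
    let v : ℕ → FreeAlt Φ (Fin (n + 1)) := fun k => if hk : k < n + 1 then FreeAlt.gen ⟨k, hk⟩ else 0
    let g : FreeAlt Φ (Fin (n + 1)) →ₙₐ[Φ] B := FreeAlt.lift (fun a b => ⟨hB.left a b, hB.right a b⟩) x
    have hg : (fun k => g (v k)) = y := by
      funext k
      show g (if hk : k < n + 1 then FreeAlt.gen ⟨k, hk⟩ else 0) = if hk : k < n + 1 then x ⟨k, hk⟩ else 0
      split_ifs with hk
      · exact FreeAlt.lift_gen (fun a b => ⟨hB.left a b, hB.right a b⟩) x _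
      · exact map_zero g
    have h1 := lift_natural g v (P.F (FreeNonUnitalNonAssocAlgebra Φ ℕ) (fun i => X i.val) pz pw)
    rw [hid v, map_zero, hg] at h1
    have h2 := P.map (FreeNonUnitalNonAssocAlgebra Φ ℕ) B
      (FreeNonUnitalNonAssocAlgebra.lift Φ y : FreeNonUnitalNonAssocAlgebra Φ ℕ →ₙ+* B)
      (fun i => X i.val) pz pw
    have h3 : ∀ k, (FreeNonUnitalNonAssocAlgebra.lift Φ y :
      FreeNonUnitalNonAssocAlgebra Φ ℕ →ₙ+* B) (X k) = y k := by
      intro k
      exact FreeNonUnitalNonAssocAlgebra.lift_of_apply Φ y k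
    have h4 : (FreeNonUnitalNonAssocAlgebra.lift Φ y : FreeNonUnitalNonAssocAlgebra Φ ℕ →ₙ+* B) pz = z := hpz
    have h5 : (FreeNonUnitalNonAssocAlgebra.lift Φ y : FreeNonUnitalNonAssocAlgebra Φ ℕ →ₙ+* B) pw = w := hpw
    simp only [h3, h4, h5, hy] at h2
    exact h2.symm.trans h1.symm

/-- the special case in which the parameters are among the arguments -/
theorem strict_of_PF {Φ : Type} [CommRing Φ] {n : ℕ} (P : PF (n + 1)) (B : Type) [NonUnitalNonAssocRing B]
    [Module Φ B] [IsScalarTower Φ B B] [SMulCommClass Φ B B] (hB : IsAlt B) (x : Fin (n + 1) → B)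
    (i0 i1 : Fin (n + 1)) (h : P.F B x (x i0) (x i1) ≠ 0) :
    ∃ p : FreeNonUnitalNonAssocAlgebra Φ ℕ,
      IsIdentity Φ p (FreeAlt Φ (Fin n)) ∧ ¬ IsIdentity Φ p (FreeAlt Φ (Fin (n + 1))) :=
  strict_of_PF' P B hB x _ _ (NonUnitalAlgebra.subset_adjoin Φ ⟨i0, rfl⟩) (NonUnitalAlgebra.subset_adjoin Φ ⟨i1, rfl⟩) h

/-- strictness of the inclusion of varieties -/
def Strict (Φ : Type) [CommRing Φ] (m : ℕ) : Prop :=
  (∀ (A : Type) [NonUnitalNonAssocRing A] [Module Φ A] [IsScalarTower Φ A A] [SMulCommClass Φ A A],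
    InAlt Φ m A → InAlt Φ (m + 1) A) ∧
  ∃ (A : Type) (_ : NonUnitalNonAssocRing A) (_ : Module Φ A) (_ : IsScalarTower Φ A A) (_ : SMulCommClass Φ A A),
    InAlt Φ (m + 1) A ∧ ¬ InAlt Φ m A

theorem strict_of_identity {Φ : Type} [CommRing Φ] {m : ℕ}
    (h : ∃ p : FreeNonUnitalNonAssocAlgebra Φ ℕ,
      IsIdentity Φ p (FreeAlt Φ (Fin m)) ∧ ¬ IsIdentity Φ p (FreeAlt Φ (Fin (m + 1)))) : Strict Φ m := by
  obtain ⟨p, h1, h2⟩ := h
  refine ⟨fun A _ _ _ _ hA => InAlt_mono m A hA, FreeAlt Φ (Fin (m + 1)), inferInstance, inferInstance,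
    inferInstance, inferInstance, InAlt_self _, fun h3 => h2 (h3 p h1)⟩

/-- `P` does not vanish on some alternative `Φ`-algebra, the parameters being in the subalgebra generated by the
arguments -/
def NonVan (Φ : Type) [CommRing Φ] {N : ℕ} (P : PF N) : Prop :=
  ∃ (B : Type) (_ : NonUnitalNonAssocRing B) (_ : Module Φ B) (_ : IsScalarTower Φ B B)
    (_ : SMulCommClass Φ B B) (_ : IsAlt B) (x : Fin N → B) (z w : B),
    z ∈ NonUnitalAlgebra.adjoin Φ (Set.range x) ∧ w ∈ NonUnitalAlgebra.adjoin Φ (Set.range x) ∧ P.F B x z w ≠ 0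

lemma NonVan.of_slots {Φ : Type} [CommRing Φ] {N : ℕ} {P : PF N}
    (h : ∃ (B : Type) (_ : NonUnitalNonAssocRing B) (_ : Module Φ B) (_ : IsScalarTower Φ B B)
      (_ : SMulCommClass Φ B B) (_ : IsAlt B) (x : Fin N → B) (i0 i1 : Fin N), P.F B x (x i0) (x i1) ≠ 0) :
    NonVan Φ P := by
  obtain ⟨B, _, _, _, _, hB, x, i0, i1, h⟩ := h
  exact ⟨B, inferInstance, inferInstance, inferInstance, inferInstance, hB, x, x i0, x i1,
    NonUnitalAlgebra.subset_adjoin Φ ⟨i0, rfl⟩, NonUnitalAlgebra.subset_adjoin Φ ⟨i1, rfl⟩, h⟩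

theorem strict_of_NonVan {Φ : Type} [CommRing Φ] {n N : ℕ} (P : PF N) (hN : N = n + 1) (h : NonVan Φ P) :
    Strict Φ n := by
  subst hN
  obtain ⟨B, _, _, _, _, hB, x, z, w, hz, hw, h⟩ := h
  exact strict_of_identity (strict_of_PF' P B hB x z w hz hw h)

/-- The assembly: natural families with 5 and 6 arguments whose products with commutators do not vanish. -/
theorem strict_all' {Φ : Type} [CommRing Φ] (P5 : PF 5) (P6 : PF 6)
    (h5 : ∀ k : ℕ, NonVan Φ (P5.iter (by norm_num) k)) (h6 : ∀ k : ℕ, NonVan Φ (P6.iter (by norm_num) k))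
    (m : ℕ) (hm : 4 ≤ m) : Strict Φ m := by
  rcases Nat.even_or_odd m with ⟨r, hr⟩ | ⟨r, hr⟩
  · obtain ⟨k, rfl⟩ : ∃ k, r = 2 + k := ⟨r - 2, by omega⟩
    exact strict_of_NonVan (P5.iter (by norm_num) k) (by omega) (h5 k)
  · obtain ⟨k, rfl⟩ : ∃ k, r = 2 + k := ⟨r - 2, by omega⟩
    exact strict_of_NonVan (P6.iter (by norm_num) k) (by omega) (h6 k)

/-- The same with parameters among the arguments. -/
theorem strict_all {Φ : Type} [CommRing Φ] (P5 : PF 5) (P6 : PF 6)
    (h5 : ∀ k : ℕ, ∃ (B : Type) (_ : NonUnitalNonAssocRing B) (_ : Module Φ B) (_ : IsScalarTower Φ B B)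
      (_ : SMulCommClass Φ B B) (_ : IsAlt B) (x : Fin (5 + 2 * k) → B) (i0 i1 : Fin (5 + 2 * k)),
      (P5.iter (by norm_num) k).F B x (x i0) (x i1) ≠ 0)
    (h6 : ∀ k : ℕ, ∃ (B : Type) (_ : NonUnitalNonAssocRing B) (_ : Module Φ B) (_ : IsScalarTower Φ B B)
      (_ : SMulCommClass Φ B B) (_ : IsAlt B) (x : Fin (6 + 2 * k) → B) (i0 i1 : Fin (6 + 2 * k)),
      (P6.iter (by norm_num) k).F B x (x i0) (x i1) ≠ 0) (m : ℕ) (hm : 4 ≤ m) : Strict Φ m :=
  strict_all' P5 P6 (fun k => NonVan.of_slots (h5 k)) (fun k => NonVan.of_slots (h6 k)) m hm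

end Pool.Agent.Helper817.Chain
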