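import Pool.Agent.Helper817.Chain.Mo
import Pool.Agent.Helper805.Chain.PFs
set_option autoImplicit false
open scoped TensorProduct

/-! Exterior algebras over a field and over the integers, and the extraction of coefficients. -/

namespace Pool.Agent.Helper817.Chain.Xi
open Pool.Agent.Helper805.Nuc.Ext Pool.Agent.Helper805.Nuc.Tens Pool.Agent.Helper805.Chain
  Pool.Agent.Helper805.Mod Pool.Agent.Helper817.Chain.Tab Pool.Agent.Helper817.Chain.Rg

section
variable (K : Type) [Field K] (n m : ℕ)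

/-- the exterior algebra over the field -/
abbrev LK : Type := ExteriorAlgebra K (Fin n → K)

/-- the tensor product of the two exterior algebras -/
abbrev CC : Type := (LK K n) ⊗[ℤ] (ExteriorAlgebra ℤ (Fin m → ℤ))

/-- the generators (zero from `n` on) -/
noncomputable def gN (j : ℕ) : LK K n := if h : j < n then gen K n ⟨j, h⟩ else 0

lemma gN_anti (i j : ℕ) : gN K n i * gN K n j = -(gN K n j * gN K n i) := by
  unfold gN
  split_ifs with h1 h2 h2
  · exact gen_swap K n _ _
  · simp
  · simp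
  · simp

lemma gN_sq (i : ℕ) : gN K n i * gN K n i = 0 := by
  unfold gN
  split_ifs with h
  · exact ExteriorAlgebra.ι_sq_zero _
  · simp

variable {m}

lemma gz_anti (i j : Fin m) : gen ℤ m i * gen ℤ m j = -(gen ℤ m j * gen ℤ m i) := gen_swap ℤ m i j
lemma gz_sq (i : Fin m) : gen ℤ m i * gen ℤ m i = 0 := ExteriorAlgebra.ι_sq_zero _

/-- products of generators -/
noncomputable def wd (i : ℕ) (j : Fin m) : CC K n m := gN K n i ⊗ₜ[ℤ] gen ℤ m j

lemma wd_comm (i : ℕ) (j : Fin m) (k : ℕ) (l : Fin m) : Commute (wd K n i j) (wd K n k l) := by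
  show wd K n i j * wd K n k l = wd K n k l * wd K n i j
  unfold wd
  rw [Algebra.TensorProduct.tmul_mul_tmul, Algebra.TensorProduct.tmul_mul_tmul, gN_anti, gz_anti,
    TensorProduct.neg_tmul, TensorProduct.tmul_neg, neg_neg]

lemma wd_sq (i : ℕ) (j : Fin m) : wd K n i j * wd K n i j = 0 := by
  unfold wd
  rw [Algebra.TensorProduct.tmul_mul_tmul, gN_sq, TensorProduct.zero_tmul]

/-- extraction of the coefficient of the top monomial in the second factor -/
noncomputable def tau : CC K n m →+ LK K n :=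
  ((TensorProduct.rid ℤ (LK K n)).toLinearMap ∘ₗ
    (TensorProduct.map (LinearMap.id : LK K n →ₗ[ℤ] LK K n) (top ℤ m))).toAddMonoidHom

lemma tau_tmul (u : LK K n) (v : ExteriorAlgebra ℤ (Fin m → ℤ)) : tau K n (u ⊗ₜ[ℤ] v) = (top ℤ m v) • u := by
  show (TensorProduct.rid ℤ (LK K n)) (TensorProduct.map LinearMap.id (top ℤ m) (u ⊗ₜ[ℤ] v)) = _
  rw [TensorProduct.map_tmul, TensorProduct.rid_tmul]
  rfl

variable (t : Tbl)

/-- evaluation at a basis vector -/
def pr (C : Type) [Ring C] [Algebra K C] (i : Fin (D t).N) : SR K C t →+ C where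
  toFun v := v i
  map_zero' := rfl
  map_add' _ _ := rfl

/-- coefficients in the exterior algebra over the integers are moved to the coefficients of the superalgebra -/
noncomputable def Xi : TS (SR K (LK K n) t) m →+ SR K (CC K n m) t where
  toFun r := fun i => TensorProduct.map ((pr K t (LK K n) i).toIntLinearMap) (LinearMap.id : _ →ₗ[ℤ] _) r
  map_zero' := by funext i; exact map_zero _
  map_add' := by intro r s; funext i; exact map_add _ _ _

lemma Xi_tm (a : SR K (LK K n) t) (u : Lam m) (i : Fin (D t).N) : Xi K n t (tm a u) i = (a i) ⊗ₜ[ℤ] u :=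
  TensorProduct.map_tmul _ _ _ _

lemma Xi_mul (r s : TS (SR K (LK K n) t) m) : Xi K n t (r * s) = Xi K n t r * Xi K n t s := by
  refine ts_mul_ind ?_ r s
  intro a b u v
  rw [tm_mul]
  funext l
  rw [Xi_tm]
  show (∑ i : Fin (D t).N, ∑ j : Fin (D t).N, (D t).ck K i j l • (a i * b j)) ⊗ₜ[ℤ] (u * v) =
    ∑ i : Fin (D t).N, ∑ j : Fin (D t).N, (D t).ck K i j l • (Xi K n t (tm a u) i * Xi K n t (tm b v) j)
  rw [TensorProduct.sum_tmul]
  refine Finset.sum_congr rfl fun i _ => ?_
  rw [TensorProduct.sum_tmul]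
  refine Finset.sum_congr rfl fun j _ => ?_
  rw [Xi_tm, Xi_tm, Algebra.TensorProduct.tmul_mul_tmul]
  rfl

lemma ext_Xi (r : TS (SR K (LK K n) t) m) (i : Fin (D t).N) : ext r i = tau K n (Xi K n t r i) := by
  have : (pr K t (LK K n) i).comp ext = (tau K n).comp ((pr K t (CC K n m) i).comp (Xi K n t)) := by
    apply tsext
    intro a u
    show (ext (tm a u)) i = tau K n (Xi K n t (tm a u) i)
    rw [ext_tm, Xi_tm, tau_tmul]
    rfl
  exact congrArg (fun l => l r) this

/-- the value of a function given by an expression -/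
theorem Fv_eq {p : ℕ} (c : Fin p → Fin m) (e : Ex) (z w : TS (SR K (LK K n) t) m) (v : Fin p → SR K (LK K n) t)
    (i : Fin (D t).N) :
    Fv c e z w v i = tau K n (e.val (Xi K n t (XX c v)) (Xi K n t z) (Xi K n t w) i) := by
  unfold Fv
  rw [ext_Xi, Ex.val_map (Xi K n t) (Xi_mul K n t)]

lemma Xi_te_one (k : ℕ) (u : LK K n) (j : Fin m) :
    Xi K n t (te (sgl K t k u) [j]) = sgl K t k (u ⊗ₜ[ℤ] gen ℤ m j) := by
  rw [te_one]
  funext i
  rw [Xi_tm, sgl_apply, sgl_apply]
  split_ifs
  · rfl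
  · exact TensorProduct.zero_tmul _ _

lemma Xi_te_nil (k : ℕ) (u : LK K n) :
    Xi K n t (te (sgl K t k u) ([] : List (Fin m))) = sgl K t k (u ⊗ₜ[ℤ] 1) := by
  unfold te
  rw [E_nil]
  funext i
  rw [Xi_tm, sgl_apply, sgl_apply]
  split_ifs
  · rfl
  · exact TensorProduct.zero_tmul _ _

end

end Pool.Agent.Helper817.Chain.Xi
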